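import Pool.Agent.Lib.MP_b0c7df_gt.Maps
import Mathlib.Topology.Algebra.Module.Basic
import Mathlib.Topology.MetricSpace.Pseudo.Constructions
import Mathlib.Algebra.Order.AbsoluteValue.Basic
import Mathlib.Tactic.FunProp

/-!
The elements of the group generated by the update rules are homogeneous homeomorphisms which satisfy
a Lipschitz condition for the norm `|a₁| + |a₂| + |b₁| + |b₂|`.
-/

namespace Pool.Agent.Lib.MP_b0c7df_gt

/-- The norm `|a₁| + |a₂| + |b₁| + |b₂|`. -/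
def nm (v : Dyn) : ℝ := |v.1| + |v.2.1| + |v.2.2.1| + |v.2.2.2|

theorem nm_nonneg (v : Dyn) : 0 ≤ nm v := by
  unfold nm
  positivity

theorem nm_add (u v : Dyn) : nm (u + v) ≤ nm u + nm v := by
  unfold nm
  simp only [Prod.fst_add, Prod.snd_add]
  linarith [abs_add_le u.1 v.1, abs_add_le u.2.1 v.2.1, abs_add_le u.2.2.1 v.2.2.1,
    abs_add_le u.2.2.2 v.2.2.2]

theorem nm_smul (c : ℝ) (v : Dyn) : nm (c • v) = |c| * nm v := by
  unfold nm
  simp only [Prod.smul_fst, Prod.smul_snd, smul_eq_mul, abs_mul]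
  ring

theorem nm_neg (v : Dyn) : nm (-v) = nm v := by
  unfold nm
  simp only [Prod.fst_neg, Prod.snd_neg, abs_neg]

theorem nm_sub (u v : Dyn) : nm (u - v) ≤ nm u + nm v := by
  have h := nm_add u (-v)
  rwa [nm_neg, ← sub_eq_add_neg] at h

theorem nm_sub_comm (u v : Dyn) : nm (u - v) = nm (v - u) := by
  rw [← nm_neg (u - v), neg_sub]

theorem nm_tri (u v w : Dyn) : nm (u - w) ≤ nm (u - v) + nm (v - w) := by
  have h := nm_add (u - v) (v - w)
  rwa [sub_add_sub_cancel] at h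

theorem nm_zero : nm 0 = 0 := by
  simp [nm]

theorem nm_eq_zero {v : Dyn} (h : nm v = 0) : v = 0 := by
  unfold nm at h
  have h1 := abs_nonneg v.1
  have h2 := abs_nonneg v.2.1
  have h3 := abs_nonneg v.2.2.1
  have h4 := abs_nonneg v.2.2.2
  have e1 : v.1 = 0 := abs_eq_zero.1 (by linarith)
  have e2 : v.2.1 = 0 := abs_eq_zero.1 (by linarith)
  have e3 : v.2.2.1 = 0 := abs_eq_zero.1 (by linarith)
  have e4 : v.2.2.2 = 0 := abs_eq_zero.1 (by linarith)
  exact Prod.ext e1 (Prod.ext e2 (Prod.ext e3 e4))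

@[fun_prop]
theorem continuous_pos : Continuous pos := continuous_id.max continuous_const

@[fun_prop]
theorem continuous_neg' : Continuous neg := continuous_id.min continuous_const

@[fun_prop]
theorem continuous_nm : Continuous nm := by
  unfold nm
  fun_prop

theorem abs_pos_sub (x y : ℝ) : |pos x - pos y| ≤ |x - y| := abs_max_sub_max_le_abs x y 0

theorem abs_neg_sub (x y : ℝ) : |neg x - neg y| ≤ |x - y| := by
  have h := abs_pos_sub (-x) (-y)
  rw [pos_neg_eq, pos_neg_eq] at h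
  rw [show neg x - neg y = -(-neg x - -neg y) by ring, abs_neg]
  refine h.trans (le_of_eq ?_)
  rw [show -x - -y = -(x - y) by ring, abs_neg]

theorem pos_smul {c : ℝ} (hc : 0 ≤ c) (x : ℝ) : pos (c * x) = c * pos x := by
  unfold pos
  rw [mul_max_of_nonneg _ _ hc, mul_zero]

theorem neg_smul' {c : ℝ} (hc : 0 ≤ c) (x : ℝ) : neg (c * x) = c * neg x := by
  unfold neg
  rw [mul_min_of_nonneg _ _ hc, mul_zero]

/-- Homogeneous, continuous and Lipschitz. -/
structure Nice (f : Dyn → Dyn) : Prop where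
  hom : ∀ c : ℝ, 0 ≤ c → ∀ v, f (c • v) = c • f v
  cont : Continuous f
  lip : ∃ L : ℝ, 1 ≤ L ∧ ∀ u v, nm (f u - f v) ≤ L * nm (u - v)

theorem Nice.id : Nice (fun v => v) :=
  ⟨fun _ _ _ => rfl, continuous_id, 1, le_refl _, fun u v => by rw [one_mul]⟩

theorem Nice.comp {f g : Dyn → Dyn} (hf : Nice f) (hg : Nice g) : Nice (fun v => f (g v)) := by
  refine ⟨fun c hc v => by rw [hg.hom c hc, hf.hom c hc], hf.cont.comp hg.cont, ?_⟩
  obtain ⟨L, h1, hL⟩ := hf.lip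
  obtain ⟨M, h2, hM⟩ := hg.lip
  refine ⟨L * M, by nlinarith, fun u v => (hL _ _).trans ?_⟩
  rw [mul_assoc]
  exact mul_le_mul_of_nonneg_left (hM u v) (by linarith)

theorem nice_s1 : Nice s1 := by
  refine ⟨?_, ?_, 10, by norm_num, ?_⟩
  · rintro c hc ⟨a1, a2, b1, b2⟩
    simp only [s1, Prod.smul_mk, smul_eq_mul]
    rw [pos_smul hc, ← mul_add, pos_smul hc]
    exact Prod.ext (by dsimp only; ring) rfl
  · unfold s1
    fun_prop
  · rintro ⟨a1, a2, b1, b2⟩ ⟨a1', a2', b1', b2'⟩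
    simp only [nm, s1, Prod.mk_sub_mk]
    have h1 := abs_le.1 (abs_pos_sub b1 b1')
    have h2 := abs_le.1 (abs_pos_sub (a1 + pos b1) (a1' + pos b1'))
    have k1 := abs_le.1 (le_refl |a1 - a1'|)
    have k3 := abs_le.1 (le_refl |b1 - b1'|)
    have m0 : |a1 + pos b1 - (a1' + pos b1')| ≤ |a1 - a1'| + |b1 - b1'| :=
      abs_le.2 ⟨by linarith, by linarith⟩
    have m1 : |-b1 + pos (a1 + pos b1) - (-b1' + pos (a1' + pos b1'))| ≤
        |a1 - a1'| + 2 * |b1 - b1'| := abs_le.2 ⟨by linarith, by linarith⟩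
    linarith [abs_nonneg (a1 - a1'), abs_nonneg (a2 - a2'), abs_nonneg (b1 - b1'),
      abs_nonneg (b2 - b2')]

theorem nice_s1i : Nice s1i := by
  refine ⟨?_, ?_, 10, by norm_num, ?_⟩
  · rintro c hc ⟨a1, a2, b1, b2⟩
    simp only [s1i, Prod.smul_mk, smul_eq_mul]
    rw [pos_smul hc, ← mul_sub, pos_smul hc]
    exact Prod.ext (by dsimp only; ring) rfl
  · unfold s1i
    fun_prop
  · rintro ⟨a1, a2, b1, b2⟩ ⟨a1', a2', b1', b2'⟩
    simp only [nm, s1i, Prod.mk_sub_mk]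
    have h1 := abs_le.1 (abs_pos_sub b1 b1')
    have h2 := abs_le.1 (abs_pos_sub (pos b1 - a1) (pos b1' - a1'))
    have k1 := abs_le.1 (le_refl |a1 - a1'|)
    have k3 := abs_le.1 (le_refl |b1 - b1'|)
    have m0 : |pos b1 - a1 - (pos b1' - a1')| ≤ |a1 - a1'| + |b1 - b1'| :=
      abs_le.2 ⟨by linarith, by linarith⟩
    have m1 : |b1 - pos (pos b1 - a1) - (b1' - pos (pos b1' - a1'))| ≤
        |a1 - a1'| + 2 * |b1 - b1'| := abs_le.2 ⟨by linarith, by linarith⟩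
    linarith [abs_nonneg (a1 - a1'), abs_nonneg (a2 - a2'), abs_nonneg (b1 - b1'),
      abs_nonneg (b2 - b2')]

theorem nice_s3 : Nice s3 := by
  refine ⟨?_, ?_, 10, by norm_num, ?_⟩
  · rintro c hc ⟨a1, a2, b1, b2⟩
    simp only [s3, Prod.smul_mk, smul_eq_mul]
    rw [neg_smul' hc, ← mul_add, neg_smul' hc]
    exact Prod.ext rfl (Prod.ext (by dsimp only; ring) rfl)
  · unfold s3
    fun_prop
  · rintro ⟨a1, a2, b1, b2⟩ ⟨a1', a2', b1', b2'⟩
    simp only [nm, s3, Prod.mk_sub_mk]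
    have h1 := abs_le.1 (abs_neg_sub b2 b2')
    have h2 := abs_le.1 (abs_neg_sub (a2 + neg b2) (a2' + neg b2'))
    have k1 := abs_le.1 (le_refl |a2 - a2'|)
    have k3 := abs_le.1 (le_refl |b2 - b2'|)
    have m0 : |a2 + neg b2 - (a2' + neg b2')| ≤ |a2 - a2'| + |b2 - b2'| :=
      abs_le.2 ⟨by linarith, by linarith⟩
    have m1 : |-b2 + neg (a2 + neg b2) - (-b2' + neg (a2' + neg b2'))| ≤
        |a2 - a2'| + 2 * |b2 - b2'| := abs_le.2 ⟨by linarith, by linarith⟩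
    linarith [abs_nonneg (a1 - a1'), abs_nonneg (a2 - a2'), abs_nonneg (b1 - b1'),
      abs_nonneg (b2 - b2')]

theorem nice_s3i : Nice s3i := by
  refine ⟨?_, ?_, 10, by norm_num, ?_⟩
  · rintro c hc ⟨a1, a2, b1, b2⟩
    simp only [s3i, Prod.smul_mk, smul_eq_mul]
    rw [neg_smul' hc, ← mul_sub, neg_smul' hc]
    exact Prod.ext rfl (Prod.ext (by dsimp only; ring) rfl)
  · unfold s3i
    fun_prop
  · rintro ⟨a1, a2, b1, b2⟩ ⟨a1', a2', b1', b2'⟩
    simp only [nm, s3i, Prod.mk_sub_mk]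
    have h1 := abs_le.1 (abs_neg_sub b2 b2')
    have h2 := abs_le.1 (abs_neg_sub (neg b2 - a2) (neg b2' - a2'))
    have k1 := abs_le.1 (le_refl |a2 - a2'|)
    have k3 := abs_le.1 (le_refl |b2 - b2'|)
    have m0 : |neg b2 - a2 - (neg b2' - a2')| ≤ |a2 - a2'| + |b2 - b2'| :=
      abs_le.2 ⟨by linarith, by linarith⟩
    have m1 : |b2 - neg (neg b2 - a2) - (b2' - neg (neg b2' - a2'))| ≤
        |a2 - a2'| + 2 * |b2 - b2'| := abs_le.2 ⟨by linarith, by linarith⟩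
    linarith [abs_nonneg (a1 - a1'), abs_nonneg (a2 - a2'), abs_nonneg (b1 - b1'),
      abs_nonneg (b2 - b2')]

theorem nice_refl : Nice refl := by
  refine ⟨?_, ?_, 1, le_refl _, ?_⟩
  · rintro c hc ⟨a1, a2, b1, b2⟩
    simp only [refl, Prod.smul_mk, smul_eq_mul, mul_neg]
  · unfold refl
    fun_prop
  · rintro ⟨a1, a2, b1, b2⟩ ⟨a1', a2', b1', b2'⟩
    simp only [nm, refl, Prod.mk_sub_mk, one_mul]
    rw [show -a1 - -a1' = -(a1 - a1') by ring, show -a2 - -a2' = -(a2 - a2') by ring, abs_neg,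
      abs_neg]

theorem nice_s2 : Nice s2 := by
  refine ⟨?_, ?_, 40, by norm_num, ?_⟩
  · rintro c hc ⟨a1, a2, b1, b2⟩
    have hc' : s2c (c • (a1, a2, b1, b2)) = c * s2c (a1, a2, b1, b2) := by
      simp only [s2c, Prod.smul_mk, smul_eq_mul]
      rw [pos_smul hc, neg_smul' hc]
      ring
    have e1 : pos (pos (c * b2) + c * s2c (a1, a2, b1, b2)) =
        c * pos (pos b2 + s2c (a1, a2, b1, b2)) := by
      rw [pos_smul hc, ← mul_add, pos_smul hc]
    have e2 : neg (neg (c * b1) - c * s2c (a1, a2, b1, b2)) =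
        c * neg (neg b1 - s2c (a1, a2, b1, b2)) := by
      rw [neg_smul' hc, ← mul_sub, neg_smul' hc]
    unfold s2
    rw [hc']
    simp only [Prod.smul_mk, smul_eq_mul]
    rw [e1, e2, pos_smul hc, neg_smul' hc b2, neg_smul' hc (s2c _)]
    exact Prod.ext (by dsimp only; ring) (Prod.ext (by dsimp only; ring)
      (Prod.ext (by dsimp only; ring) (by dsimp only; ring)))
  · unfold s2 s2c
    fun_prop
  · rintro ⟨a1, a2, b1, b2⟩ ⟨a1', a2', b1', b2'⟩
    simp only [nm, s2, Prod.mk_sub_mk]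
    have k1 := abs_le.1 (le_refl |a1 - a1'|)
    have k2 := abs_le.1 (le_refl |a2 - a2'|)
    have k3 := abs_le.1 (le_refl |b1 - b1'|)
    have k4 := abs_le.1 (le_refl |b2 - b2'|)
    have p1 := abs_le.1 (abs_pos_sub b1 b1')
    have p2 := abs_le.1 (abs_pos_sub b2 b2')
    have n1 := abs_le.1 (abs_neg_sub b1 b1')
    have n2 := abs_le.1 (abs_neg_sub b2 b2')
    have hcc : |s2c (a1, a2, b1, b2) - s2c (a1', a2', b1', b2')| ≤
        |a1 - a1'| + |a2 - a2'| + |b1 - b1'| + |b2 - b2'| := by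
      simp only [s2c]
      exact abs_le.2 ⟨by linarith, by linarith⟩
    set c := s2c (a1, a2, b1, b2)
    set c' := s2c (a1', a2', b1', b2')
    have hc1 := abs_le.1 hcc
    have q1 := abs_le.1 (abs_pos_sub (pos b2 + c) (pos b2' + c'))
    have q2 := abs_le.1 (abs_neg_sub (neg b1 - c) (neg b1' - c'))
    have q3 := abs_le.1 (abs_neg_sub c c')
    have r1 : |pos b2 + c - (pos b2' + c')| ≤
        |a1 - a1'| + |a2 - a2'| + |b1 - b1'| + 2 * |b2 - b2'| :=
      abs_le.2 ⟨by linarith, by linarith⟩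
    have r2 : |neg b1 - c - (neg b1' - c')| ≤
        |a1 - a1'| + |a2 - a2'| + 2 * |b1 - b1'| + |b2 - b2'| :=
      abs_le.2 ⟨by linarith, by linarith⟩
    have m1 : |a1 - pos b1 - pos (pos b2 + c) - (a1' - pos b1' - pos (pos b2' + c'))| ≤
        2 * |a1 - a1'| + |a2 - a2'| + 2 * |b1 - b1'| + 2 * |b2 - b2'| :=
      abs_le.2 ⟨by linarith, by linarith⟩
    have m2 : |a2 - neg b2 - neg (neg b1 - c) - (a2' - neg b2' - neg (neg b1' - c'))| ≤
        |a1 - a1'| + 2 * |a2 - a2'| + 2 * |b1 - b1'| + 2 * |b2 - b2'| :=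
      abs_le.2 ⟨by linarith, by linarith⟩
    have m3 : |b2 + neg c - (b2' + neg c')| ≤
        |a1 - a1'| + |a2 - a2'| + |b1 - b1'| + 2 * |b2 - b2'| :=
      abs_le.2 ⟨by linarith, by linarith⟩
    have m4 : |b1 - neg c - (b1' - neg c')| ≤
        |a1 - a1'| + |a2 - a2'| + 2 * |b1 - b1'| + |b2 - b2'| :=
      abs_le.2 ⟨by linarith, by linarith⟩
    linarith [abs_nonneg (a1 - a1'), abs_nonneg (a2 - a2'), abs_nonneg (b1 - b1'),
      abs_nonneg (b2 - b2')]

theorem s2i_eq (v : Dyn) : s2i v = refl (s2 (refl v)) := by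
  rw [s2_refl, refl_refl]

theorem nice_s2i : Nice s2i := by
  have h := nice_refl.comp (nice_s2.comp nice_refl)
  have e : s2i = fun v => refl (s2 (refl v)) := funext s2i_eq
  rw [e]
  exact h

theorem nice_of_mem {g : Equiv.Perm Dyn} (hg : g ∈ Braid) : Nice g ∧ Nice g.symm := by
  refine Subgroup.closure_induction
    (p := fun (g : Equiv.Perm Dyn) _ => Nice (g : Dyn → Dyn) ∧ Nice (g.symm : Dyn → Dyn))
    ?_ ?_ ?_ ?_ hg
  · intro x hx
    rcases hx with rfl | rfl | rfl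
    · exact ⟨nice_s1, nice_s1i⟩
    · exact ⟨nice_s2, nice_s2i⟩
    · exact ⟨nice_s3, nice_s3i⟩
  · exact ⟨Nice.id, Nice.id⟩
  · intro x y _ _ hx hy
    exact ⟨hx.1.comp hy.1, hy.2.comp hx.2⟩
  · intro x _ hx
    exact ⟨hx.2, hx.1⟩

/-- The elements of the group are homeomorphisms. -/
def homeo (g : Equiv.Perm Dyn) (hg : g ∈ Braid) : Dyn ≃ₜ Dyn :=
  { g with
    continuous_toFun := (nice_of_mem hg).1.cont
    continuous_invFun := (nice_of_mem hg).2.cont }

theorem braid_zero {g : Equiv.Perm Dyn} (hg : g ∈ Braid) : g 0 = 0 := by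
  have h := (nice_of_mem hg).1.hom 0 (le_refl _) 0
  rwa [zero_smul, zero_smul] at h

theorem braid_ne_zero {g : Equiv.Perm Dyn} (hg : g ∈ Braid) {v : Dyn} (hv : v ≠ 0) : g v ≠ 0 := by
  intro h
  apply hv
  apply g.injective
  rw [h, braid_zero hg]

theorem σ₁_mem : σ₁ ∈ Braid := Subgroup.subset_closure (Or.inl rfl)
theorem σ₂_mem : σ₂ ∈ Braid := Subgroup.subset_closure (Or.inr (Or.inl rfl))
theorem σ₃_mem : σ₃ ∈ Braid := Subgroup.subset_closure (Or.inr (Or.inr rfl))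

end Pool.Agent.Lib.MP_b0c7df_gt
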