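import Pool.Agent.Lib.MP_b0c7df_gt.Stage

/-!
The cells of the chart, bounded by walls of nonfilling laminations.
-/

namespace Pool.Agent.Lib.MP_b0c7df_gt

/-- The height of the graph of walls. -/
def hgt (p : ℕ) (v : Dyn) : ℝ :=
  (v.2.2.1 - p * v.1) + min (pos (v.2.2.1 - p * v.1 - v.1 + v.2.1)) (2 * v.2.1 - v.1)

/-- The closed region. -/
def D (p r : ℕ) : Set Dyn :=
  {v | 0 ≤ v.1 ∧ 0 ≤ v.2.1 ∧ 0 ≤ v.2.2.1 ∧ v.2.2.2 ≤ 0 ∧ p * v.1 ≤ v.2.2.1 ∧
    v.2.2.1 ≤ (p + 1) * v.1 ∧ r * v.2.1 ≤ -v.2.2.2 ∧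
    (v.1 ≤ v.2.1 ∨ 2 * v.2.1 ≤ v.1 ∨ r * v.2.1 + hgt p v ≤ -v.2.2.2)}

/-- The open cell. -/
def cell (p r : ℕ) : Set Dyn :=
  {v | 0 < v.1 ∧ 0 < v.2.1 ∧ p * v.1 < v.2.2.1 ∧ v.2.2.1 < (p + 1) * v.1 ∧
    ((r + 2) * v.2.1 < -v.2.2.2 ∨
      (v.2.1 < v.1 ∧ v.1 < 2 * v.2.1 ∧ r * v.2.1 + hgt p v < -v.2.2.2))}

theorem isClosed_or' {P Q : Dyn → Prop} (hp : IsClosed {v | P v}) (hq : IsClosed {v | Q v}) :
    IsClosed {v | P v ∨ Q v} := hp.union hq

theorem isOpen_or' {P Q : Dyn → Prop} (hp : IsOpen {v | P v}) (hq : IsOpen {v | Q v}) :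
    IsOpen {v | P v ∨ Q v} := hp.union hq

theorem continuous_hgt (p : ℕ) : Continuous (hgt p) := by
  unfold hgt
  fun_prop

theorem isClosed_D (p r : ℕ) : IsClosed (D p r) := by
  have hh := continuous_hgt p
  refine IsClosed.and (isClosed_le (by fun_prop) (by fun_prop)) (IsClosed.and
    (isClosed_le (by fun_prop) (by fun_prop)) (IsClosed.and
    (isClosed_le (by fun_prop) (by fun_prop)) (IsClosed.and
    (isClosed_le (by fun_prop) (by fun_prop)) (IsClosed.and
    (isClosed_le (by fun_prop) (by fun_prop)) (IsClosed.and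
    (isClosed_le (by fun_prop) (by fun_prop)) (IsClosed.and
    (isClosed_le (by fun_prop) (by fun_prop)) (isClosed_or'
    (isClosed_le (by fun_prop) (by fun_prop)) (isClosed_or'
    (isClosed_le (by fun_prop) (by fun_prop))
    (isClosed_le (by fun_prop) (by fun_prop))))))))))

theorem isOpen_cell (p r : ℕ) : IsOpen (cell p r) := by
  have hh := continuous_hgt p
  refine IsOpen.and (isOpen_lt (by fun_prop) (by fun_prop)) (IsOpen.and
    (isOpen_lt (by fun_prop) (by fun_prop)) (IsOpen.and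
    (isOpen_lt (by fun_prop) (by fun_prop)) (IsOpen.and
    (isOpen_lt (by fun_prop) (by fun_prop)) (isOpen_or'
    (isOpen_lt (by fun_prop) (by fun_prop)) (IsOpen.and
    (isOpen_lt (by fun_prop) (by fun_prop)) (IsOpen.and
    (isOpen_lt (by fun_prop) (by fun_prop))
    (isOpen_lt (by fun_prop) (by fun_prop))))))))

theorem hgt_smul (p : ℕ) {c : ℝ} (hc : 0 ≤ c) (v : Dyn) : hgt p (c • v) = c * hgt p v := by
  unfold hgt
  simp only [Prod.smul_fst, Prod.smul_snd, smul_eq_mul]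
  rw [show c * v.2.2.1 - p * (c * v.1) - c * v.1 + c * v.2.1 =
    c * (v.2.2.1 - p * v.1 - v.1 + v.2.1) by ring, pos_smul hc,
    show 2 * (c * v.2.1) - c * v.1 = c * (2 * v.2.1 - v.1) by ring,
    ← mul_min_of_nonneg _ _ hc]
  ring

theorem hgt_le (p : ℕ) {v : Dyn} (h1 : v.2.2.1 ≤ (p + 1) * v.1) : hgt p v ≤ 2 * v.2.1 := by
  unfold hgt
  have := min_le_right (pos (v.2.2.1 - p * v.1 - v.1 + v.2.1)) (2 * v.2.1 - v.1)
  linarith

theorem hgt_nonneg (p : ℕ) {v : Dyn} (h1 : p * v.1 ≤ v.2.2.1) (h2 : v.1 ≤ 2 * v.2.1) :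
    0 ≤ hgt p v := by
  unfold hgt
  have : 0 ≤ min (pos (v.2.2.1 - p * v.1 - v.1 + v.2.1)) (2 * v.2.1 - v.1) :=
    le_min (pos_nonneg _) (by linarith)
  linarith

theorem cell_subset (p r : ℕ) : cell p r ⊆ D p r := by
  rintro v ⟨h1, h2, h3, h4, h5⟩
  have e1 : (0 : ℝ) ≤ p * v.1 := mul_nonneg (Nat.cast_nonneg _) h1.le
  have e2 : (0 : ℝ) ≤ r * v.2.1 := mul_nonneg (Nat.cast_nonneg _) h2.le
  rcases h5 with h5 | ⟨h5, h6, h7⟩
  · refine ⟨h1.le, h2.le, by linarith, by linarith, h3.le, h4.le, by linarith, ?_⟩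
    have := hgt_le p h4.le
    exact Or.inr (Or.inr (by linarith))
  · have := hgt_nonneg p h3.le h6.le
    exact ⟨h1.le, h2.le, by linarith, by linarith, h3.le, h4.le, by linarith,
      Or.inr (Or.inr h7.le)⟩

theorem D_smul {p r : ℕ} {c : ℝ} (hc : 0 ≤ c) {v : Dyn} (h : v ∈ D p r) : c • v ∈ D p r := by
  obtain ⟨h1, h2, h3, h4, h5, h6, h7, h8⟩ := h
  refine ⟨mul_nonneg hc h1, mul_nonneg hc h2, mul_nonneg hc h3,
    mul_nonpos_of_nonneg_of_nonpos hc h4, ?_, ?_, ?_, ?_⟩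
  · show p * (c * v.1) ≤ c * v.2.2.1
    have := mul_le_mul_of_nonneg_left h5 hc
    linarith
  · show c * v.2.2.1 ≤ (p + 1) * (c * v.1)
    have := mul_le_mul_of_nonneg_left h6 hc
    linarith
  · show r * (c * v.2.1) ≤ -(c * v.2.2.2)
    have := mul_le_mul_of_nonneg_left h7 hc
    linarith
  · rw [hgt_smul p hc]
    rcases h8 with h8 | h8 | h8
    · exact Or.inl (mul_le_mul_of_nonneg_left h8 hc)
    · refine Or.inr (Or.inl ?_)
      show 2 * (c * v.2.1) ≤ c * v.1
      have := mul_le_mul_of_nonneg_left h8 hc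
      linarith
    · refine Or.inr (Or.inr ?_)
      show r * (c * v.2.1) + c * hgt p v ≤ -(c * v.2.2.2)
      have := mul_le_mul_of_nonneg_left h8 hc
      linarith

theorem cell_smul {p r : ℕ} {c : ℝ} (hc : 0 < c) {v : Dyn} (h : v ∈ cell p r) :
    c • v ∈ cell p r := by
  obtain ⟨h1, h2, h5, h6, h8⟩ := h
  refine ⟨mul_pos hc h1, mul_pos hc h2, ?_, ?_, ?_⟩
  · show p * (c * v.1) < c * v.2.2.1
    have := mul_lt_mul_of_pos_left h5 hc
    linarith
  · show c * v.2.2.1 < (p + 1) * (c * v.1)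
    have := mul_lt_mul_of_pos_left h6 hc
    linarith
  · rw [hgt_smul p hc.le]
    rcases h8 with h8 | ⟨h8, h9, h10⟩
    · refine Or.inl ?_
      show (r + 2) * (c * v.2.1) < -(c * v.2.2.2)
      have := mul_lt_mul_of_pos_left h8 hc
      linarith
    · refine Or.inr ⟨mul_lt_mul_of_pos_left h8 hc, ?_, ?_⟩
      · show c * v.1 < 2 * (c * v.2.1)
        have := mul_lt_mul_of_pos_left h9 hc
        linarith
      · show r * (c * v.2.1) + c * hgt p v < -(c * v.2.2.2)
        have := mul_lt_mul_of_pos_left h10 hc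
        linarith

/-- The boundary of the cell consists, in the slab, of nonfilling laminations. -/
theorem cell_of_filling {p r : ℕ} {v : Dyn} (hv : v ∈ D p r) (hf : Filling v)
    (h12 : v.2.1 < v.1) (h21 : -v.2.2.2 ≤ (r + 2) * v.2.1 → v.1 < 2 * v.2.1) :
    v ∈ cell p r := by
  obtain ⟨a1, a2, b1, b2⟩ := v
  obtain ⟨h1, h2, h3, h4, h5, h6, h7, h8⟩ := hv
  dsimp only at *
  have ha2 : 0 < a2 := by
    rcases h2.lt_or_eq with h | h
    · exact h
    · rw [← h] at hf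
      exact absurd hf (nf_34 h1 h3 h4)
  have ha1 : 0 < a1 := ha2.trans h12
  have k1 : p * a1 < b1 := by
    rcases h5.lt_or_eq with h | h
    · exact h
    · rw [← h] at hf
      exact absurd hf (nf_a h2 h12.le h4 p)
  have k2 : b1 < (p + 1) * a1 := by
    rcases h6.lt_or_eq with h | h
    · exact h
    · rw [h] at hf
      have := nf_a h2 h12.le h4 (p + 1)
      rw [Nat.cast_succ] at this
      exact absurd hf this
  refine ⟨ha1, ha2, k1, k2, ?_⟩
  rcases lt_or_ge ((r + 2) * a2) (-b2) with h | h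
  · exact Or.inl h
  · have h22 := h21 h
    refine Or.inr ⟨h12, h22, ?_⟩
    dsimp only
    have h9 : r * a2 + hgt p (a1, a2, b1, b2) ≤ -b2 := by
      rcases h8 with h8 | h8 | h8
      · exact absurd h12 (not_lt.2 h8)
      · exact absurd h22 (not_lt.2 h8)
      · exact h8
    rcases h9.lt_or_eq with h' | h'
    · exact h'
    exfalso
    obtain ⟨x, hx⟩ : ∃ x, x = b1 - p * a1 := ⟨_, rfl⟩
    have hb1 : b1 = x + p * a1 := by linarith
    have hh : hgt p (a1, a2, b1, b2) = x + min (pos (x - a1 + a2)) (2 * a2 - a1) := by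
      unfold hgt
      dsimp only
      rw [← hx]
    rw [hh] at h'
    have hx0 : 0 < x := by linarith
    have hx1 : x < a1 := by linarith
    rcases le_total x (a1 - a2) with hxa | hxa
    · rw [pos_of_nonpos (by linarith : x - a1 + a2 ≤ 0), min_eq_left (by linarith), add_zero] at h'
      have hb2 : b2 = -(x + r * a2) := by linarith
      rw [hb1, hb2] at hf
      exact nf_e hx0.le hx1.le (by linarith) p r hf
    · rw [pos_of_nonneg (by linarith : 0 ≤ x - a1 + a2)] at h'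
      rcases le_total x a2 with hxb | hxb
      · rw [min_eq_left (by linarith)] at h'
        have hb2 : b2 = -(2 * x - a1 + a2 + r * a2) := by linarith
        rw [hb1, hb2] at hf
        exact nf_f h12.le hxa hxb p r hf
      · rw [min_eq_right (by linarith)] at h'
        have hb2 : b2 = -(a2 + (x - a1) + (r + 1 : ℕ) * a2) := by
          rw [Nat.cast_succ]
          linarith
        have hb1' : b1 = a1 + (x - a1) + p * a1 := by linarith
        rw [hb1', hb2] at hf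
        exact nf_e' (by linarith) (by linarith) (by linarith) p (r + 1) hf

/-- The images of the stage maps lie in the cells. -/
theorem hmap_mem_cell {p r q : ℕ} (hq : q + 3 ≤ r) {v : Dyn} (hv : Cone v)
    (hf : Filling (hmap p r v)) : hmap p r v ∈ cell p q := by
  obtain ⟨a1, a2, b1, t, rfl, h1, h2, h3, h4⟩ := hv.exists
  rw [hmap_apply h1 h2 h3 h4] at hf ⊢
  have hp : (0 : ℝ) ≤ p * (5 * a1 + 2 * b1 + 4 * t) := mul_nonneg (Nat.cast_nonneg _) (by linarith)
  have hr : (0 : ℝ) ≤ r * (2 * a1 + a2 + 2 * t) := mul_nonneg (Nat.cast_nonneg _) (by linarith)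
  have k2 : 0 < 2 * a1 + a2 + 2 * t := by
    rcases (by linarith : 0 ≤ 2 * a1 + a2 + 2 * t).lt_or_eq with h | h
    · exact h
    · rw [← h] at hf
      exact absurd hf (nf_34 (by linarith) (by linarith) (by linarith))
  have hq' : (q : ℝ) + 3 ≤ r := by exact_mod_cast hq
  have k3 := mul_le_mul_of_nonneg_right hq' k2.le
  refine ⟨?_, k2, ?_, ?_, Or.inl ?_⟩ <;> dsimp only <;> linarith

end Pool.Agent.Lib.MP_b0c7df_gt
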