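import Pool.Agent.Lib.MP_b0c7df_gt.Maps
import Mathlib.Analysis.InnerProductSpace.PiL2
import Mathlib.Topology.ContinuousMap.Basic

/-!
The spaces `PML(S)` and `FPML(S)` for the sphere `S` with five punctures, in Dynnikov coordinates.
-/

namespace Pool.Agent.Lib.MP_b0c7df_gt

open Topology

/-- The intersection number of the measured lamination with Dynnikov coordinates `v = (a₁, a₂, b₁, b₂)`
and the simple closed curve around the first two punctures:
`2 (|a₁| + max (-b₁, 0))`. -/
def i12 (v : Dyn) : ℝ := 2 * (|v.1| + max (-v.2.2.1) 0)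

/-- The intersection number of the measured lamination with Dynnikov coordinates `v = (a₁, a₂, b₁, b₂)`
and the simple closed curve around the first three punctures (that is, with the vertical arc between
the third and the fourth puncture):
`2 (max (|a₁| + b₁⁺, |a₂| + b₂⁺ + b₁) - b₁ - b₂)`. -/
def i123 (v : Dyn) : ℝ :=
  2 * (max (|v.1| + pos v.2.2.1) (|v.2.1| + pos v.2.2.2 + v.2.2.1) - v.2.2.1 - v.2.2.2)

/-- The measured lamination with coordinates `v` is filling: it has positive intersection number with
every essential simple closed curve of the sphere with five punctures. Every such curve is the image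
of the curve around the first two or the first three punctures by an element of the braid group. -/
def Filling (v : Dyn) : Prop := ∀ g ∈ Braid, i12 (g v) ≠ 0 ∧ i123 (g v) ≠ 0

/-- Proportionality, with a positive factor, of measured laminations. -/
def scal : Setoid {v : Dyn // v ≠ 0} where
  r v w := ∃ c : ℝ, 0 < c ∧ w.1 = c • v.1
  iseqv :=
    { refl := fun v => ⟨1, one_pos, (one_smul ℝ v.1).symm⟩
      symm := by
        rintro v w ⟨c, hc, h⟩
        exact ⟨c⁻¹, inv_pos.2 hc, by rw [h, smul_smul, inv_mul_cancel₀ hc.ne', one_smul]⟩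
      trans := by
        rintro u v w ⟨c, hc, h⟩ ⟨d, hd, h'⟩
        exact ⟨d * c, mul_pos hd hc, by rw [h', h, smul_smul]⟩ }

/-- The space `PML(S)` of projective measured laminations on the sphere with five punctures. -/
def PML : Type := Quotient scal

instance : TopologicalSpace PML := inferInstanceAs (TopologicalSpace (Quotient scal))

/-- The set `FPML(S)` of the classes of the filling measured laminations. -/
def FPML : Set PML := {x | ∃ v : {v : Dyn // v ≠ 0}, Quotient.mk scal v = x ∧ Filling v.1}

/-- The sphere `S^i`. -/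
def Sph (i : ℕ) : Type := {y : EuclideanSpace ℝ (Fin (i + 1)) // ‖y‖ = 1}

instance (i : ℕ) : TopologicalSpace (Sph i) :=
  inferInstanceAs (TopologicalSpace {y : EuclideanSpace ℝ (Fin (i + 1)) // ‖y‖ = 1})

/-- The ball `B^(i+1)`. -/
def Ball (i : ℕ) : Type := {y : EuclideanSpace ℝ (Fin (i + 1)) // ‖y‖ ≤ 1}

instance (i : ℕ) : TopologicalSpace (Ball i) :=
  inferInstanceAs (TopologicalSpace {y : EuclideanSpace ℝ (Fin (i + 1)) // ‖y‖ ≤ 1})

/-- The inclusion of the sphere `S^i` in the ball `B^(i+1)`. -/
def bdry (i : ℕ) (s : Sph i) : Ball i := ⟨s.1, s.2.le⟩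

/-- The space `X` is `m`-locally connected: for every `x` and every neighbourhood `U` of `x` there is
a neighbourhood `V ⊆ U` of `x` such that every map `S^i → V` with `0 ≤ i ≤ m` extends to a map
`B^(i+1) → U`. -/
def MLocallyConnected (m : ℕ) (X : Type) [TopologicalSpace X] : Prop :=
  ∀ x : X, ∀ U ∈ 𝓝 x, ∃ V ∈ 𝓝 x, V ⊆ U ∧ ∀ i ≤ m, ∀ f : C(Sph i, X), (∀ s, f s ∈ V) →
    ∃ F : C(Ball i, X), (∀ y, F y ∈ U) ∧ ∀ s : Sph i, F (bdry i s) = f s

end Pool.Agent.Lib.MP_b0c7df_gt
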