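import Mathlib.Topology.Instances.Real.Lemmas
import Mathlib.Tactic.Linarith
import Mathlib.Tactic.Ring
import Mathlib.Algebra.Group.Subgroup.Lattice
import Mathlib.Algebra.Group.End

/-!
The action of the braid group `B₄` on the Dynnikov coordinates `(a₁, a₂, b₁, b₂)` of the measured
laminations of the disc with four punctures, that is, of the sphere with five punctures.
-/

namespace Pool.Agent.Lib.MP_b0c7df_gt

/-- `x⁺ = max (x, 0)`. -/
def pos (x : ℝ) : ℝ := max x 0

/-- `x⁻ = min (x, 0)`. -/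
def neg (x : ℝ) : ℝ := min x 0

theorem pos_of_nonneg {x : ℝ} (h : 0 ≤ x) : pos x = x := max_eq_left h
theorem pos_of_nonpos {x : ℝ} (h : x ≤ 0) : pos x = 0 := max_eq_right h
theorem neg_of_nonneg {x : ℝ} (h : 0 ≤ x) : neg x = 0 := min_eq_right h
theorem neg_of_nonpos {x : ℝ} (h : x ≤ 0) : neg x = x := min_eq_left h
theorem pos_add_neg (x : ℝ) : pos x + neg x = x := by
  rcases le_total 0 x with h | h
  · rw [pos_of_nonneg h, neg_of_nonneg h, add_zero]
  · rw [pos_of_nonpos h, neg_of_nonpos h, zero_add]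
theorem pos_nonneg (x : ℝ) : 0 ≤ pos x := le_max_right _ _
theorem neg_nonpos (x : ℝ) : neg x ≤ 0 := min_le_right _ _
theorem pos_neg_eq (x : ℝ) : pos (-x) = -neg x := by
  rcases le_total 0 x with h | h
  · rw [neg_of_nonneg h, pos_of_nonpos (by linarith), neg_zero]
  · rw [neg_of_nonpos h, pos_of_nonneg (by linarith)]
theorem neg_neg_eq (x : ℝ) : neg (-x) = -pos x := by
  rcases le_total 0 x with h | h
  · rw [pos_of_nonneg h, neg_of_nonpos (by linarith)]
  · rw [pos_of_nonpos h, neg_of_nonneg (by linarith), neg_zero]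

/-- Dynnikov coordinates `(a₁, a₂, b₁, b₂)`. -/
abbrev Dyn : Type := ℝ × ℝ × ℝ × ℝ

/-- Update rule of the generator `σ₁`. -/
def s1 (v : Dyn) : Dyn :=
  (-v.2.2.1 + pos (v.1 + pos v.2.2.1), v.2.1, v.1 + pos v.2.2.1, v.2.2.2)

/-- Update rule of `σ₁⁻¹`. -/
def s1i (v : Dyn) : Dyn :=
  (v.2.2.1 - pos (pos v.2.2.1 - v.1), v.2.1, pos v.2.2.1 - v.1, v.2.2.2)

/-- The number `c` in the update rule of `σ₂`. -/
def s2c (v : Dyn) : ℝ := v.1 - v.2.1 - pos v.2.2.2 + neg v.2.2.1

/-- Update rule of the generator `σ₂`. -/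
def s2 (v : Dyn) : Dyn :=
  (v.1 - pos v.2.2.1 - pos (pos v.2.2.2 + s2c v),
    v.2.1 - neg v.2.2.2 - neg (neg v.2.2.1 - s2c v),
    v.2.2.2 + neg (s2c v), v.2.2.1 - neg (s2c v))

/-- The number `d` in the update rule of `σ₂⁻¹`. -/
def s2d (v : Dyn) : ℝ := v.1 - v.2.1 + pos v.2.2.2 - neg v.2.2.1

/-- Update rule of `σ₂⁻¹`. -/
def s2i (v : Dyn) : Dyn :=
  (v.1 + pos v.2.2.1 + pos (pos v.2.2.2 - s2d v),
    v.2.1 + neg v.2.2.2 + neg (neg v.2.2.1 + s2d v),
    v.2.2.2 - pos (s2d v), v.2.2.1 + pos (s2d v))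

/-- Update rule of the generator `σ₃`. -/
def s3 (v : Dyn) : Dyn :=
  (v.1, -v.2.2.2 + neg (v.2.1 + neg v.2.2.2), v.2.2.1, v.2.1 + neg v.2.2.2)

/-- Update rule of `σ₃⁻¹`. -/
def s3i (v : Dyn) : Dyn :=
  (v.1, v.2.2.2 - neg (neg v.2.2.2 - v.2.1), v.2.2.1, neg v.2.2.2 - v.2.1)

theorem s1i_s1 (v : Dyn) : s1i (s1 v) = v := by
  obtain ⟨a1, a2, b1, b2⟩ := v
  simp only [s1, s1i, Prod.mk.injEq, true_and, and_true]
  have h : pos (a1 + pos b1) - (-b1 + pos (a1 + pos b1)) = b1 := by ring
  rw [h]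
  exact ⟨by ring, rfl⟩

theorem s1_s1i (v : Dyn) : s1 (s1i v) = v := by
  obtain ⟨a1, a2, b1, b2⟩ := v
  simp only [s1, s1i, Prod.mk.injEq, true_and, and_true]
  have h : b1 - pos (pos b1 - a1) + pos (pos b1 - a1) = b1 := by ring
  rw [h]
  exact ⟨by ring, rfl⟩

theorem s3i_s3 (v : Dyn) : s3i (s3 v) = v := by
  obtain ⟨a1, a2, b1, b2⟩ := v
  simp only [s3, s3i, Prod.mk.injEq, true_and]
  have h : neg (a2 + neg b2) - (-b2 + neg (a2 + neg b2)) = b2 := by ring
  rw [h]
  exact ⟨by ring, rfl⟩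

theorem s3_s3i (v : Dyn) : s3 (s3i v) = v := by
  obtain ⟨a1, a2, b1, b2⟩ := v
  simp only [s3, s3i, Prod.mk.injEq, true_and]
  have h : b2 - neg (neg b2 - a2) + neg (neg b2 - a2) = b2 := by ring
  rw [h]
  exact ⟨by ring, rfl⟩

theorem s2d_s2 (v : Dyn) : s2d (s2 v) = -s2c v := by
  have h1 : v.1 - v.2.1 = s2c v + pos v.2.2.2 - neg v.2.2.1 := by unfold s2c; ring
  simp only [s2d, s2]
  have e1 := pos_add_neg v.2.2.1
  have e2 := pos_add_neg v.2.2.2
  set c := s2c v
  set b1 := v.2.2.1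
  set b2 := v.2.2.2
  rcases le_total 0 c with hc | hc
  · rw [neg_of_nonneg hc, pos_of_nonneg (add_nonneg (pos_nonneg b2) hc),
      neg_of_nonpos (by linarith [neg_nonpos b1] : neg b1 - c ≤ 0), sub_zero, add_zero]
    linarith
  · rw [neg_of_nonpos hc]
    have k1 : pos (pos b2 + c) + neg (b2 + c) = b2 + c := by
      rcases le_total 0 b2 with h | h
      · rw [pos_of_nonneg h, pos_add_neg]
      · rw [pos_of_nonpos h, pos_of_nonpos (by linarith), neg_of_nonpos (by linarith), zero_add]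
    have k2 : neg (neg b1 - c) + pos (b1 - c) = b1 - c := by
      rcases le_total 0 b1 with h | h
      · rw [neg_of_nonneg h, neg_of_nonneg (by linarith), pos_of_nonneg (by linarith), zero_add]
      · rw [neg_of_nonpos h, add_comm, pos_add_neg]
    linarith

theorem s2i_s2 (v : Dyn) : s2i (s2 v) = v := by
  have hd := s2d_s2 v
  have h1 : v.1 - v.2.1 = s2c v + pos v.2.2.2 - neg v.2.2.1 := by unfold s2c; ring
  unfold s2i
  rw [hd, pos_neg_eq]
  simp only [s2]
  set c := s2c v
  set b1 := v.2.2.1 with hb1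
  set b2 := v.2.2.2 with hb2
  have e1 := pos_add_neg b1
  have e2 := pos_add_neg b2
  have k1 : pos b1 + pos (pos b2 + c) = pos (b2 + neg c) + pos (pos (b1 - neg c) - -c) := by
    rcases le_total 0 c with hc | hc
    · rw [neg_of_nonneg hc, pos_of_nonneg (add_nonneg (pos_nonneg b2) hc), add_zero, sub_zero,
        pos_of_nonneg (by linarith [pos_nonneg b1] : 0 ≤ pos b1 - -c)]
      ring
    · rw [neg_of_nonpos hc]
      rcases le_total 0 (b2 + c) with h2 | h2
      · rw [pos_of_nonneg (by linarith : 0 ≤ b2), pos_of_nonneg h2]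
        rcases le_total 0 b1 with h | h
        · rw [pos_of_nonneg h, pos_of_nonneg (by linarith : 0 ≤ b1 - c),
            pos_of_nonneg (by linarith : 0 ≤ b1 - c - -c)]
          ring
        · rw [pos_of_nonpos h]
          rcases le_total 0 (b1 - c) with h' | h'
          · rw [pos_of_nonneg h', pos_of_nonpos (by linarith : b1 - c - -c ≤ 0)]
            ring
          · rw [pos_of_nonpos h', pos_of_nonpos (by linarith : 0 - -c ≤ 0)]
            ring
      · have : pos (pos b2 + c) = 0 := by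
          rcases le_total 0 b2 with h | h
          · rw [pos_of_nonneg h, pos_of_nonpos h2]
          · rw [pos_of_nonpos h, pos_of_nonpos (by linarith)]
        rw [this, pos_of_nonpos h2]
        rcases le_total 0 b1 with h | h
        · rw [pos_of_nonneg h, pos_of_nonneg (by linarith : 0 ≤ b1 - c),
            pos_of_nonneg (by linarith : 0 ≤ b1 - c - -c)]
          ring
        · rw [pos_of_nonpos h]
          rcases le_total 0 (b1 - c) with h' | h'
          · rw [pos_of_nonneg h', pos_of_nonpos (by linarith : b1 - c - -c ≤ 0)]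
          · rw [pos_of_nonpos h', pos_of_nonpos (by linarith : 0 - -c ≤ 0)]
  have k2 : neg b2 + neg (neg b1 - c) = neg (b1 - neg c) + neg (neg (b2 + neg c) + -c) := by
    rcases le_total 0 c with hc | hc
    · rw [neg_of_nonneg hc, neg_of_nonpos (by linarith [neg_nonpos b1] : neg b1 - c ≤ 0), add_zero,
        sub_zero, neg_of_nonpos (by linarith [neg_nonpos b2] : neg b2 + -c ≤ 0)]
      ring
    · rw [neg_of_nonpos hc]
      rcases le_total 0 (b1 - c) with h2 | h2
      · have : neg (neg b1 - c) = 0 := by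
          rcases le_total 0 b1 with h | h
          · rw [neg_of_nonneg h, neg_of_nonneg (by linarith)]
          · rw [neg_of_nonpos h, neg_of_nonneg h2]
        rw [this, neg_of_nonneg h2]
        rcases le_total 0 b2 with h | h
        · rw [neg_of_nonneg h]
          rcases le_total 0 (b2 + c) with h' | h'
          · rw [neg_of_nonneg h', neg_of_nonneg (by linarith : 0 ≤ 0 + -c)]
          · rw [neg_of_nonpos h', neg_of_nonneg (by linarith : 0 ≤ b2 + c + -c)]
        · rw [neg_of_nonpos h, neg_of_nonpos (by linarith : b2 + c ≤ 0),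
            neg_of_nonpos (by linarith : b2 + c + -c ≤ 0)]
          ring
      · rw [neg_of_nonpos (by linarith : b1 ≤ 0), neg_of_nonpos h2]
        rcases le_total 0 b2 with h | h
        · rw [neg_of_nonneg h]
          rcases le_total 0 (b2 + c) with h' | h'
          · rw [neg_of_nonneg h', neg_of_nonneg (by linarith : 0 ≤ 0 + -c)]
            ring
          · rw [neg_of_nonpos h', neg_of_nonneg (by linarith : 0 ≤ b2 + c + -c)]
            ring
        · rw [neg_of_nonpos h, neg_of_nonpos (by linarith : b2 + c ≤ 0),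
            neg_of_nonpos (by linarith : b2 + c + -c ≤ 0)]
          ring
  apply Prod.ext
  · show v.1 - pos b1 - pos (pos b2 + c) + pos (b2 + neg c) + pos (pos (b1 - neg c) - -c) = v.1
    linarith
  apply Prod.ext
  · show v.2.1 - neg b2 - neg (neg b1 - c) + neg (b1 - neg c) + neg (neg (b2 + neg c) + -c) = v.2.1
    linarith
  apply Prod.ext
  · show b1 - neg c - -neg c = b1
    ring
  · show b2 + neg c + -neg c = b2
    ring

/-- The reflection of the disc. -/
def refl (v : Dyn) : Dyn := (-v.1, -v.2.1, v.2.2.1, v.2.2.2)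

theorem refl_refl (v : Dyn) : refl (refl v) = v := by
  obtain ⟨a1, a2, b1, b2⟩ := v
  simp only [refl, neg_neg]

theorem s2_refl (v : Dyn) : s2 (refl v) = refl (s2i v) := by
  have hc : s2c (refl v) = -s2d v := by
    simp only [s2c, s2d, refl]
    ring
  have h1 : ∀ x y : ℝ, pos (x + -y) = pos (x - y) := fun x y => by rw [sub_eq_add_neg]
  unfold s2
  rw [hc, neg_neg_eq, sub_neg_eq_add]
  simp only [s2i, refl]
  apply Prod.ext
  · show -v.1 - pos v.2.2.1 - pos (pos v.2.2.2 + -s2d v) =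
      -(v.1 + pos v.2.2.1 + pos (pos v.2.2.2 - s2d v))
    rw [h1]
    ring
  apply Prod.ext
  · show -v.2.1 - neg v.2.2.2 - neg (neg v.2.2.1 + s2d v) =
      -(v.2.1 + neg v.2.2.2 + neg (neg v.2.2.1 + s2d v))
    ring
  apply Prod.ext
  · show v.2.2.2 + -pos (s2d v) = v.2.2.2 - pos (s2d v)
    ring
  · show v.2.2.1 - -pos (s2d v) = v.2.2.1 + pos (s2d v)
    ring

theorem s2_s2i (v : Dyn) : s2 (s2i v) = v := by
  have h1 : ∀ w : Dyn, s2i (refl w) = refl (s2 w) := by
    intro w
    have h := s2_refl (refl w)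
    rw [refl_refl] at h
    rw [h, refl_refl]
  have e : s2i v = refl (s2 (refl v)) := by rw [← h1, refl_refl]
  rw [e, s2_refl, s2i_s2, refl_refl]

/-- The generator `σ₁` as a bijection of the set of Dynnikov coordinates. -/
def σ₁ : Equiv.Perm Dyn := ⟨s1, s1i, s1i_s1, s1_s1i⟩

/-- The generator `σ₂` as a bijection of the set of Dynnikov coordinates. -/
def σ₂ : Equiv.Perm Dyn := ⟨s2, s2i, s2i_s2, s2_s2i⟩

/-- The generator `σ₃` as a bijection of the set of Dynnikov coordinates. -/
def σ₃ : Equiv.Perm Dyn := ⟨s3, s3i, s3i_s3, s3_s3i⟩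

/-- The group of bijections generated by `σ₁`, `σ₂`, `σ₃`, the image of the braid group `B₄`. -/
def Braid : Subgroup (Equiv.Perm Dyn) := Subgroup.closure {σ₁, σ₂, σ₃}

end Pool.Agent.Lib.MP_b0c7df_gt
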