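import Pool.Agent.Lib.MP_b0c7df_gt.Act
import Pool.Agent.Lib.MP_b0c7df_gt.Defs

/-!
Walls of nonfilling laminations in the chart `a₁, a₂, b₁ ≥ 0 ≥ b₂`, and the two twists.
-/

namespace Pool.Agent.Lib.MP_b0c7df_gt

theorem Filling.map {v : Dyn} (h : Filling v) {g : Equiv.Perm Dyn} (hg : g ∈ Braid) :
    Filling (g v) := by
  intro k hk
  have := h (k * g) (mul_mem hk hg)
  rwa [Equiv.Perm.mul_apply] at this

theorem Filling.of_map {v : Dyn} {g : Equiv.Perm Dyn} (hg : g ∈ Braid) (h : Filling (g v)) :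
    Filling v := by
  have h1 := h.map (inv_mem hg)
  have e : g⁻¹ (g v) = v := g.symm_apply_apply v
  rwa [e] at h1

theorem Filling.ne_zero {v : Dyn} (h : Filling v) : v ≠ 0 := by
  rintro rfl
  have h1 := (h 1 (one_mem _)).1
  apply h1
  simp [i12]

theorem i12_smul {c : ℝ} (hc : 0 ≤ c) (v : Dyn) : i12 (c • v) = c * i12 v := by
  have h : i12 v = 2 * (|v.1| + pos (-v.2.2.1)) := rfl
  have h' : i12 (c • v) = 2 * (|c * v.1| + pos (-(c * v.2.2.1))) := rfl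
  rw [h, h', abs_mul, abs_of_nonneg hc, ← mul_neg, pos_smul hc]
  ring

theorem i123_smul {c : ℝ} (hc : 0 ≤ c) (v : Dyn) : i123 (c • v) = c * i123 v := by
  have h' : i123 (c • v) = 2 * (max (|c * v.1| + pos (c * v.2.2.1))
    (|c * v.2.1| + pos (c * v.2.2.2) + c * v.2.2.1) - c * v.2.2.1 - c * v.2.2.2) := rfl
  rw [h', abs_mul, abs_mul, abs_of_nonneg hc, pos_smul hc, pos_smul hc, ← mul_add, ← mul_add,
    ← mul_add, ← mul_max_of_nonneg _ _ hc]
  unfold i123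
  ring

theorem Filling.smul {v : Dyn} (h : Filling v) {c : ℝ} (hc : 0 < c) : Filling (c • v) := by
  intro k hk
  rw [(nice_of_mem hk).1.hom c hc.le, i12_smul hc.le, i123_smul hc.le]
  exact ⟨mul_ne_zero hc.ne' (h k hk).1, mul_ne_zero hc.ne' (h k hk).2⟩

section twists

variable {a b : ℝ}

theorem s1_pp (ha : 0 ≤ a) (hb : 0 ≤ b) (a2 b2 : ℝ) : s1 (a, a2, b, b2) = (a, a2, a + b, b2) := by
  simp only [s1]
  rw [pos_of_nonneg hb, pos_of_nonneg (add_nonneg ha hb)]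
  exact Prod.ext (by dsimp only; ring) rfl

theorem s1_pn (ha : 0 ≤ a) (hb : b ≤ 0) (a2 b2 : ℝ) : s1 (a, a2, b, b2) = (a - b, a2, a, b2) := by
  simp only [s1]
  rw [pos_of_nonpos hb, add_zero, pos_of_nonneg ha]
  exact Prod.ext (by dsimp only; ring) rfl

theorem s1_nn (ha : a ≤ 0) (hb : b ≤ 0) (a2 b2 : ℝ) : s1 (a, a2, b, b2) = (-b, a2, a, b2) := by
  simp only [s1]
  rw [pos_of_nonpos hb, add_zero, pos_of_nonpos ha, add_zero]

theorem s3i_pn (ha : 0 ≤ a) (hb : b ≤ 0) (a1 b1 : ℝ) : s3i (a1, a, b1, b) = (a1, a, b1, b - a) := by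
  simp only [s3i]
  rw [neg_of_nonpos hb, neg_of_nonpos (by linarith : b - a ≤ 0)]
  exact Prod.ext rfl (Prod.ext (by dsimp only; ring) rfl)

theorem s3i_pp (ha : 0 ≤ a) (hb : 0 ≤ b) (a1 b1 : ℝ) : s3i (a1, a, b1, b) = (a1, a + b, b1, -a) := by
  simp only [s3i]
  rw [neg_of_nonneg hb, zero_sub, neg_of_nonpos (by linarith : -a ≤ 0)]
  exact Prod.ext rfl (Prod.ext (by dsimp only; ring) rfl)

theorem s3i_np (ha : a ≤ 0) (hb : 0 ≤ b) (a1 b1 : ℝ) : s3i (a1, a, b1, b) = (a1, b, b1, -a) := by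
  simp only [s3i]
  rw [neg_of_nonneg hb, zero_sub, neg_of_nonneg (by linarith : 0 ≤ -a), sub_zero]

theorem T1_iter (ha : 0 ≤ a) (hb : 0 ≤ b) (a2 b2 : ℝ) (n : ℕ) :
    (σ₁ ^ n) (a, a2, b, b2) = (a, a2, b + n * a, b2) := by
  induction n with
  | zero => simp
  | succ n ih =>
    rw [pow_succ', Equiv.Perm.mul_apply, ih]
    have h1 : 0 ≤ b + n * a := by positivity
    have h2 : σ₁ (a, a2, b + n * a, b2) = s1 (a, a2, b + n * a, b2) := rfl
    rw [h2, s1_pp ha h1, Nat.cast_succ]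
    exact Prod.ext rfl (Prod.ext rfl (Prod.ext (by dsimp only; ring) rfl))

theorem T2_iter (ha : 0 ≤ a) (hb : b ≤ 0) (a1 b1 : ℝ) (n : ℕ) :
    (σ₃⁻¹ ^ n) (a1, a, b1, b) = (a1, a, b1, b - n * a) := by
  induction n with
  | zero => simp
  | succ n ih =>
    rw [pow_succ', Equiv.Perm.mul_apply, ih]
    have h0 : 0 ≤ (n : ℝ) * a := by positivity
    have h1 : b - n * a ≤ 0 := by linarith
    have h2 : σ₃⁻¹ (a1, a, b1, b - n * a) = s3i (a1, a, b1, b - n * a) := rfl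
    rw [h2, s3i_pn ha h1, Nat.cast_succ]
    exact Prod.ext rfl (Prod.ext rfl (Prod.ext rfl (by dsimp only; ring)))

/-- The twist about the first curve, on its other side. -/
theorem T1_succ (ha : 0 ≤ a) (hb : b ≤ 0) (a2 b2 : ℝ) (n : ℕ) :
    (σ₁ ^ (n + 1)) (a, a2, b, b2) = (a - b, a2, a + n * (a - b), b2) := by
  rw [pow_succ, Equiv.Perm.mul_apply]
  have h2 : σ₁ (a, a2, b, b2) = s1 (a, a2, b, b2) := rfl
  rw [h2, s1_pn ha hb, T1_iter (by linarith) ha]

theorem T2_succ (ha : 0 ≤ a) (hb : 0 ≤ b) (a1 b1 : ℝ) (n : ℕ) :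
    (σ₃⁻¹ ^ (n + 1)) (a1, a, b1, b) = (a1, a + b, b1, -a - n * (a + b)) := by
  rw [pow_succ, Equiv.Perm.mul_apply]
  have h2 : σ₃⁻¹ (a1, a, b1, b) = s3i (a1, a, b1, b) := rfl
  rw [h2, s3i_pp ha hb, T2_iter (by linarith) (by linarith)]

end twists

theorem σ₁_pow_mem (n : ℕ) : σ₁ ^ n ∈ Braid := pow_mem σ₁_mem n
theorem σ₃_pow_mem (n : ℕ) : σ₃⁻¹ ^ n ∈ Braid := pow_mem (inv_mem σ₃_mem) n

/-- The curve around the punctures `2` and `3`. -/
theorem nf_23 (x : ℝ) {u w : ℝ} (hu : 0 ≤ u) (hw : 0 ≤ w) : ¬ Filling (x, x, -u, w) := by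
  intro h
  have h1 := (h (σ₂ * σ₁) (mul_mem σ₂_mem σ₁_mem)).1
  apply h1
  have e : (σ₂ * σ₁) (x, x, -u, w) = s2 (s1 (x, x, -u, w)) := rfl
  have e1 : s1 (x, x, -u, w) = (u + pos x, x, x, w) := by
    simp only [s1]
    rw [pos_of_nonpos (by linarith : -u ≤ 0), add_zero, neg_neg]
  have e2 : s2c (u + pos x, x, x, w) = u - w := by
    simp only [s2c]
    have := pos_add_neg x
    rw [pos_of_nonneg hw]
    linarith
  rw [e, e1]
  unfold i12
  have e3 : (s2 (u + pos x, x, x, w)).1 = 0 := by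
    simp only [s2, e2]
    rw [pos_of_nonneg hw, pos_of_nonneg (by linarith : 0 ≤ w + (u - w))]
    ring
  have e4 : 0 ≤ (s2 (u + pos x, x, x, w)).2.2.1 := by
    simp only [s2, e2]
    rcases le_total 0 (u - w) with hc | hc
    · rw [neg_of_nonneg hc]
      linarith
    · rw [neg_of_nonpos hc]
      linarith
  rw [e3, abs_zero, max_eq_right (by linarith)]
  ring

/-- The curve around the punctures `3` and `4`. -/
theorem nf_34 {a b c : ℝ} (ha : 0 ≤ a) (hb : 0 ≤ b) (hc : c ≤ 0) : ¬ Filling (a, 0, b, c) := by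
  intro h
  have h1 := (h (σ₂ * (σ₁ * (σ₃ * σ₂)))
    (mul_mem σ₂_mem (mul_mem σ₁_mem (mul_mem σ₃_mem σ₂_mem)))).1
  apply h1
  have e : (σ₂ * (σ₁ * (σ₃ * σ₂))) (a, 0, b, c) = s2 (s1 (s3 (s2 (a, 0, b, c)))) := rfl
  have c1 : s2c (a, 0, b, c) = a := by
    simp only [s2c]
    rw [pos_of_nonpos hc, neg_of_nonneg hb]
    ring
  have e1 : s2 (a, 0, b, c) = (-b, a - c, c, b) := by
    simp only [s2, c1]
    rw [pos_of_nonneg hb, pos_of_nonpos hc, neg_of_nonpos hc, neg_of_nonneg hb, zero_add,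
      pos_of_nonneg ha, neg_of_nonneg ha, neg_of_nonpos (by linarith : 0 - a ≤ 0)]
    exact Prod.ext (by dsimp only; ring) (Prod.ext (by dsimp only; ring)
      (Prod.ext (by dsimp only; ring) (by dsimp only; ring)))
  have e2 : s3 (-b, a - c, c, b) = (-b, -b, c, a - c) := by
    simp only [s3]
    rw [neg_of_nonneg hb, add_zero, neg_of_nonneg (by linarith : 0 ≤ a - c), add_zero]
  have e3 : s1 (-b, -b, c, a - c) = (-c, -b, -b, a - c) := s1_nn (by linarith) hc _ _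
  have c2 : s2c (-c, -b, -b, a - c) = -a := by
    simp only [s2c]
    rw [pos_of_nonneg (by linarith : 0 ≤ a - c), neg_of_nonpos (by linarith : -b ≤ 0)]
    ring
  rw [e, e1, e2, e3]
  unfold i12
  have e4 : (s2 (-c, -b, -b, a - c)).1 = 0 := by
    simp only [s2, c2]
    rw [pos_of_nonpos (by linarith : -b ≤ 0), pos_of_nonneg (by linarith : 0 ≤ a - c),
      pos_of_nonneg (by linarith : 0 ≤ a - c + -a)]
    ring
  have e5 : (s2 (-c, -b, -b, a - c)).2.2.1 = -c := by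
    simp only [s2, c2]
    rw [neg_of_nonpos (by linarith : -a ≤ 0)]
    ring
  rw [e4, e5, abs_zero, max_eq_right (by linarith)]
  ring

/-- The curve around the punctures `2`, `3`, `4`, twisted. -/
theorem nf_a {m1 m2 c : ℝ} (h2 : 0 ≤ m2) (h1 : m2 ≤ m1) (hc : c ≤ 0) (p : ℕ) :
    ¬ Filling (m1, m2, p * m1, c) := by
  intro h
  have e0 : (σ₁ ^ (p + 1)) (0, m2, -m1, c) = (m1, m2, p * m1, c) := by
    rw [T1_succ (le_refl _) (by linarith)]
    exact Prod.ext (by dsimp only; ring) (Prod.ext rfl (Prod.ext (by dsimp only; ring) rfl))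
  rw [← e0] at h
  have h' := h.of_map (σ₁_pow_mem _)
  have h1' := (h' (σ₃ * (σ₂ * σ₁)) (mul_mem σ₃_mem (mul_mem σ₂_mem σ₁_mem))).2
  apply h1'
  have e : (σ₃ * (σ₂ * σ₁)) (0, m2, -m1, c) = s3 (s2 (s1 (0, m2, -m1, c))) := rfl
  have e1 : s1 (0, m2, -m1, c) = (m1, m2, 0, c) := by
    rw [s1_pn (le_refl _) (by linarith)]
    exact Prod.ext (by dsimp only; ring) rfl
  have c1 : s2c (m1, m2, 0, c) = m1 - m2 := by
    simp only [s2c]
    rw [pos_of_nonpos hc, neg_of_nonneg (le_refl _)]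
    ring
  have e2 : s2 (m1, m2, 0, c) = (m2, m1 - c, c, 0) := by
    simp only [s2, c1]
    rw [pos_of_nonpos (le_refl 0), pos_of_nonpos hc, neg_of_nonpos hc, neg_of_nonneg (le_refl 0),
      zero_add, pos_of_nonneg (by linarith : 0 ≤ m1 - m2), neg_of_nonneg
      (by linarith : 0 ≤ m1 - m2), neg_of_nonpos (by linarith : 0 - (m1 - m2) ≤ 0)]
    exact Prod.ext (by dsimp only; ring) (Prod.ext (by dsimp only; ring)
      (Prod.ext (by dsimp only; ring) (by dsimp only; ring)))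
  have e3 : s3 (m2, m1 - c, c, 0) = (m2, 0, c, m1 - c) := by
    simp only [s3]
    rw [neg_of_nonneg (le_refl 0), add_zero, neg_of_nonneg (by linarith : 0 ≤ m1 - c), neg_zero,
      add_zero]
  rw [e, e1, e2, e3]
  unfold i123
  dsimp only
  rw [abs_of_nonneg h2, pos_of_nonpos hc, abs_zero, pos_of_nonneg (by linarith : 0 ≤ m1 - c),
    max_eq_right (by linarith)]
  ring

theorem nf_e {m1 m2 x : ℝ} (hx : 0 ≤ x) (h1 : x ≤ m1) (h2 : x ≤ m2) (p r : ℕ) :
    ¬ Filling (m1, m2, x + p * m1, -(x + r * m2)) := by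
  intro h
  have e0 : (σ₃⁻¹ ^ (r + 1)) ((σ₁ ^ (p + 1)) (x, x, -(m1 - x), m2 - x)) =
      (m1, m2, x + p * m1, -(x + r * m2)) := by
    rw [T1_succ hx (by linarith), T2_succ hx (by linarith)]
    exact Prod.ext (by dsimp only; ring) (Prod.ext (by dsimp only; ring)
      (Prod.ext (by dsimp only; ring) (by dsimp only; ring)))
  rw [← e0] at h
  have h' := (h.of_map (σ₃_pow_mem _)).of_map (σ₁_pow_mem _)
  exact nf_23 x (by linarith) (by linarith) h'

theorem nf_e' {m1 m2 x : ℝ} (hx : x ≤ 0) (h1 : 0 ≤ m1 + x) (h2 : 0 ≤ m2 + x) (p r : ℕ) :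
    ¬ Filling (m1, m2, m1 + x + p * m1, -(m2 + x + r * m2)) := by
  intro h
  have e0 : (σ₃⁻¹ ^ (r + 1 + 1)) ((σ₁ ^ (p + 1 + 1)) (x, x, -(m1 + x), m2 + x)) =
      (m1, m2, m1 + x + p * m1, -(m2 + x + r * m2)) := by
    rw [pow_succ _ (p + 1), Equiv.Perm.mul_apply]
    have h2' : σ₁ (x, x, -(m1 + x), m2 + x) = s1 (x, x, -(m1 + x), m2 + x) := rfl
    rw [h2', s1_nn hx (by linarith), T1_succ (by linarith) hx, pow_succ _ (r + 1),
      Equiv.Perm.mul_apply]
    have h3' : σ₃⁻¹ (- -(m1 + x) - x, x, - -(m1 + x) + p * (- -(m1 + x) - x), m2 + x) =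
      s3i (- -(m1 + x) - x, x, - -(m1 + x) + p * (- -(m1 + x) - x), m2 + x) := rfl
    rw [h3', s3i_np hx h2, T2_succ h2 (by linarith)]
    exact Prod.ext (by dsimp only; ring) (Prod.ext (by dsimp only; ring)
      (Prod.ext (by dsimp only; ring) (by dsimp only; ring)))
  rw [← e0] at h
  have h' := (h.of_map (σ₃_pow_mem _)).of_map (σ₁_pow_mem _)
  exact nf_23 x (by linarith) (by linarith) h'

/-- The point `ζ` of the third kind of wall. -/
theorem nf_f0 {m1 m2 x a c : ℝ} (hx : 0 ≤ x) (h1 : m2 ≤ m1) (h2 : m1 - m2 ≤ x) (h3 : x ≤ m2)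
    (hac : (0 ≤ c ∧ a = m2 - c) ∨ (c ≤ 0 ∧ a = m2)) (hc : c = m1 - 2 * x) :
    ¬ Filling (x, a, x - m1, c) := by
  intro h
  have h1' := (h (σ₃⁻¹ * (σ₃⁻¹ * (σ₂⁻¹ * σ₁⁻¹))) (mul_mem (inv_mem σ₃_mem)
    (mul_mem (inv_mem σ₃_mem) (mul_mem (inv_mem σ₂_mem) (inv_mem σ₁_mem))))).2
  apply h1'
  have e : (σ₃⁻¹ * (σ₃⁻¹ * (σ₂⁻¹ * σ₁⁻¹))) (x, a, x - m1, c) =
    s3i (s3i (s2i (s1i (x, a, x - m1, c)))) := rfl
  have e1 : s1i (x, a, x - m1, c) = (x - m1, a, -x, c) := by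
    simp only [s1i]
    rw [pos_of_nonpos (by linarith : x - m1 ≤ 0), zero_sub, pos_of_nonpos (by linarith : -x ≤ 0),
      sub_zero]
  have key : ∃ u : ℝ, s2i (x - m1, a, -x, c) = (u, -x, c, -x) ∧ 0 ≤ u ∧ u + pos c ≤ x + c := by
    rcases hac with ⟨hc0, ha⟩ | ⟨hc0, ha⟩
    · refine ⟨x - m1 + m2, ?_, by linarith, ?_⟩
      · have d1 : s2d (x - m1, a, -x, c) = -a := by
          simp only [s2d]
          rw [pos_of_nonneg hc0, neg_of_nonpos (by linarith : -x ≤ 0)]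
          linarith
        simp only [s2i, d1]
        rw [pos_of_nonpos (by linarith : -x ≤ 0), pos_of_nonneg hc0, neg_of_nonneg hc0,
          neg_of_nonpos (by linarith : -x ≤ 0), pos_of_nonpos (by linarith : -a ≤ 0),
          pos_of_nonneg (by linarith : 0 ≤ c - -a), neg_of_nonpos (by linarith : -x + -a ≤ 0)]
        exact Prod.ext (by dsimp only; linarith) (Prod.ext (by dsimp only; ring)
          (Prod.ext (by dsimp only; ring) (by dsimp only; ring)))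
      · rw [pos_of_nonneg hc0]
        linarith
    · refine ⟨m2 - x, ?_, by linarith, ?_⟩
      · have d1 : s2d (x - m1, a, -x, c) = -c - m2 := by
          simp only [s2d]
          rw [pos_of_nonpos hc0, neg_of_nonpos (by linarith : -x ≤ 0)]
          linarith
        simp only [s2i, d1]
        rw [pos_of_nonpos (by linarith : -x ≤ 0), pos_of_nonpos hc0, neg_of_nonpos hc0,
          neg_of_nonpos (by linarith : -x ≤ 0), pos_of_nonpos (by linarith : -c - m2 ≤ 0),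
          pos_of_nonneg (by linarith : 0 ≤ 0 - (-c - m2)),
          neg_of_nonpos (by linarith : -x + (-c - m2) ≤ 0)]
        exact Prod.ext (by dsimp only; linarith) (Prod.ext (by dsimp only; linarith)
          (Prod.ext (by dsimp only; ring) (by dsimp only; ring)))
      · rw [pos_of_nonpos hc0]
        linarith
  obtain ⟨u, e2, hu, huc⟩ := key
  have e3 : s3i (u, -x, c, -x) = (u, -x, c, 0) := by
    simp only [s3i]
    rw [neg_of_nonpos (by linarith : -x ≤ 0), sub_self, neg_of_nonneg (le_refl 0), sub_zero]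
  have e4 : s3i (u, -x, c, 0) = (u, 0, c, x) := by
    rw [s3i_np (by linarith) (le_refl 0), neg_neg]
  rw [e, e1, e2, e3, e4]
  unfold i123
  dsimp only
  rw [abs_zero, pos_of_nonneg hx, abs_of_nonneg hu, max_eq_right (by linarith)]
  ring

theorem nf_f {m1 m2 x : ℝ} (h1 : m2 ≤ m1) (h2 : m1 - m2 ≤ x) (h3 : x ≤ m2) (p r : ℕ) :
    ¬ Filling (m1, m2, x + p * m1, -(2 * x - m1 + m2 + r * m2)) := by
  intro h
  have hx : 0 ≤ x := by linarith
  rcases le_total 0 (m1 - 2 * x) with hc | hc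
  · have e0 : (σ₃⁻¹ ^ (r + 1)) ((σ₁ ^ (p + 1)) (x, m2 - (m1 - 2 * x), x - m1, m1 - 2 * x)) =
        (m1, m2, x + p * m1, -(2 * x - m1 + m2 + r * m2)) := by
      rw [T1_succ hx (by linarith), T2_succ (by linarith) hc]
      exact Prod.ext (by dsimp only; ring) (Prod.ext (by dsimp only; ring)
        (Prod.ext (by dsimp only; ring) (by dsimp only; ring)))
    rw [← e0] at h
    have h' := (h.of_map (σ₃_pow_mem _)).of_map (σ₁_pow_mem _)
    exact nf_f0 hx h1 h2 h3 (Or.inl ⟨hc, rfl⟩) rfl h'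
  · have e0 : (σ₃⁻¹ ^ (r + 1)) ((σ₁ ^ (p + 1)) (x, m2, x - m1, m1 - 2 * x)) =
        (m1, m2, x + p * m1, -(2 * x - m1 + m2 + r * m2)) := by
      rw [T1_succ hx (by linarith), T2_iter (by linarith) hc, Nat.cast_succ]
      exact Prod.ext (by dsimp only; ring) (Prod.ext (by dsimp only)
        (Prod.ext (by dsimp only; ring) (by dsimp only; ring)))
    rw [← e0] at h
    have h' := (h.of_map (σ₃_pow_mem _)).of_map (σ₁_pow_mem _)
    exact nf_f0 hx h1 h2 h3 (Or.inr ⟨hc, rfl⟩) rfl h'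

end Pool.Agent.Lib.MP_b0c7df_gt
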