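import Pool.Agent.Lib.MP_b0c7df_gt.NF
import Mathlib.LinearAlgebra.Dimension.Constructions
import Mathlib.LinearAlgebra.Dimension.OrzechProperty
import Mathlib.RingTheory.Localization.Module
import Mathlib.Topology.Algebra.Module.Cardinality

/-!
A lamination whose four Dynnikov coordinates are linearly independent over the rational numbers is
filling, and such laminations are dense.
-/

namespace Pool.Agent.Lib.MP_b0c7df_gt

/-- The family of the four coordinates. -/
def coords (v : Dyn) : Fin 4 → ℝ := ![v.1, v.2.1, v.2.2.1, v.2.2.2]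

/-- The coordinates are linearly independent over `ℚ`. -/
def Indep (v : Dyn) : Prop := LinearIndependent ℚ (coords v)

/-- The rational span of the coordinates. -/
noncomputable def spn (v : Dyn) : Submodule ℚ ℝ := Submodule.span ℚ (Set.range (coords v))

/-- The pairing with an integral vector. -/
noncomputable def dot (n : Fin 4 → ℤ) (v : Dyn) : ℝ :=
  n 0 * v.1 + n 1 * v.2.1 + n 2 * v.2.2.1 + n 3 * v.2.2.2

theorem dot_add (n : Fin 4 → ℤ) (u v : Dyn) : dot n (u + v) = dot n u + dot n v := by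
  simp only [dot, Prod.fst_add, Prod.snd_add]
  ring

theorem dot_smul (n : Fin 4 → ℤ) (c : ℝ) (v : Dyn) : dot n (c • v) = c * dot n v := by
  simp only [dot, Prod.smul_fst, Prod.smul_snd, smul_eq_mul]
  ring

theorem indep_iff (v : Dyn) : Indep v ↔ ∀ n : Fin 4 → ℤ, dot n v = 0 → n = 0 := by
  unfold Indep
  rw [← LinearIndependent.iff_fractionRing ℤ ℚ, Fintype.linearIndependent_iff]
  refine forall_congr' fun n => ?_
  have e : ∑ i, n i • coords v i = dot n v := by
    rw [Fin.sum_univ_four]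
    simp only [coords, dot, zsmul_eq_mul]
    rfl
  rw [e]
  exact ⟨fun h h0 => funext (h h0), fun h h0 i => congrFun (h h0) i⟩

theorem pos_mem {S : Submodule ℚ ℝ} {x : ℝ} (h : x ∈ S) : pos x ∈ S := by
  rcases le_total 0 x with h0 | h0
  · rwa [pos_of_nonneg h0]
  · rw [pos_of_nonpos h0]
    exact S.zero_mem

theorem neg_mem' {S : Submodule ℚ ℝ} {x : ℝ} (h : x ∈ S) : neg x ∈ S := by
  rcases le_total 0 x with h0 | h0
  · rw [neg_of_nonneg h0]
    exact S.zero_mem
  · rwa [neg_of_nonpos h0]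

theorem spn_le {v : Dyn} {S : Submodule ℚ ℝ} (h1 : v.1 ∈ S) (h2 : v.2.1 ∈ S) (h3 : v.2.2.1 ∈ S)
    (h4 : v.2.2.2 ∈ S) : spn v ≤ S := by
  refine Submodule.span_le.2 ?_
  rintro x ⟨i, rfl⟩
  fin_cases i
  · exact h1
  · exact h2
  · exact h3
  · exact h4

theorem mem_spn (v : Dyn) : v.1 ∈ spn v ∧ v.2.1 ∈ spn v ∧ v.2.2.1 ∈ spn v ∧ v.2.2.2 ∈ spn v :=
  ⟨Submodule.subset_span ⟨0, rfl⟩, Submodule.subset_span ⟨1, rfl⟩,
    Submodule.subset_span ⟨2, rfl⟩, Submodule.subset_span ⟨3, rfl⟩⟩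

theorem spn_s1 (v : Dyn) : spn (s1 v) ≤ spn v := by
  obtain ⟨h1, h2, h3, h4⟩ := mem_spn v
  have k := add_mem h1 (pos_mem h3)
  exact spn_le (add_mem (neg_mem h3) (pos_mem k)) h2 k h4

theorem spn_s1i (v : Dyn) : spn (s1i v) ≤ spn v := by
  obtain ⟨h1, h2, h3, h4⟩ := mem_spn v
  have k := sub_mem (pos_mem h3) h1
  exact spn_le (sub_mem h3 (pos_mem k)) h2 k h4

theorem spn_s3 (v : Dyn) : spn (s3 v) ≤ spn v := by
  obtain ⟨h1, h2, h3, h4⟩ := mem_spn v
  have k := add_mem h2 (neg_mem' h4)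
  exact spn_le h1 (add_mem (neg_mem h4) (neg_mem' k)) h3 k

theorem spn_s3i (v : Dyn) : spn (s3i v) ≤ spn v := by
  obtain ⟨h1, h2, h3, h4⟩ := mem_spn v
  have k := sub_mem (neg_mem' h4) h2
  exact spn_le h1 (sub_mem h4 (neg_mem' k)) h3 k

theorem spn_s2 (v : Dyn) : spn (s2 v) ≤ spn v := by
  obtain ⟨h1, h2, h3, h4⟩ := mem_spn v
  have k : s2c v ∈ spn v := add_mem (sub_mem (sub_mem h1 h2) (pos_mem h4)) (neg_mem' h3)
  exact spn_le (sub_mem (sub_mem h1 (pos_mem h3)) (pos_mem (add_mem (pos_mem h4) k)))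
    (sub_mem (sub_mem h2 (neg_mem' h4)) (neg_mem' (sub_mem (neg_mem' h3) k)))
    (add_mem h4 (neg_mem' k)) (sub_mem h3 (neg_mem' k))

theorem spn_s2i (v : Dyn) : spn (s2i v) ≤ spn v := by
  obtain ⟨h1, h2, h3, h4⟩ := mem_spn v
  have k : s2d v ∈ spn v := sub_mem (add_mem (sub_mem h1 h2) (pos_mem h4)) (neg_mem' h3)
  exact spn_le (add_mem (add_mem h1 (pos_mem h3)) (pos_mem (sub_mem (pos_mem h4) k)))
    (add_mem (add_mem h2 (neg_mem' h4)) (neg_mem' (add_mem (neg_mem' h3) k)))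
    (sub_mem h4 (pos_mem k)) (add_mem h3 (pos_mem k))

theorem spn_eq {f g : Dyn → Dyn} (hf : ∀ v, spn (f v) ≤ spn v) (hg : ∀ v, spn (g v) ≤ spn v)
    (h : ∀ v, g (f v) = v) (v : Dyn) : spn (f v) = spn v := by
  refine le_antisymm (hf v) ?_
  have := hg (f v)
  rwa [h] at this

theorem spn_braid {g : Equiv.Perm Dyn} (hg : g ∈ Braid) : ∀ v, spn (g v) = spn v := by
  refine Subgroup.closure_induction (p := fun (g : Equiv.Perm Dyn) _ => ∀ v, spn (g v) = spn v)
    ?_ ?_ ?_ ?_ hg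
  · intro x hx
    rcases hx with rfl | rfl | rfl
    · exact spn_eq spn_s1 spn_s1i s1i_s1
    · exact spn_eq spn_s2 spn_s2i s2i_s2
    · exact spn_eq spn_s3 spn_s3i s3i_s3
  · intro v
    rfl
  · intro x y _ _ hx hy v
    exact (hx (y v)).trans (hy v)
  · intro x _ hx v
    have h := hx (x⁻¹ v)
    have e : x (x⁻¹ v) = v := x.apply_symm_apply v
    rw [e] at h
    exact h.symm

theorem Indep.map {g : Equiv.Perm Dyn} (hg : g ∈ Braid) {v : Dyn} (h : Indep v) : Indep (g v) := by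
  have h1 := spn_braid hg v
  unfold Indep at h ⊢
  rw [linearIndependent_iff_card_eq_finrank_span] at h ⊢
  rw [h]
  unfold Set.finrank
  unfold spn at h1
  rw [h1]

theorem Indep.filling {v : Dyn} (h : Indep v) : Filling v := by
  intro g hg
  have h1 := h.map hg
  have e1 : (g v).1 ≠ 0 := h1.ne_zero 0
  have e2 : (g v).2.1 ≠ 0 := h1.ne_zero 1
  constructor
  · intro h0
    unfold i12 at h0
    have k := le_max_right (-(g v).2.2.1) 0
    have k' := abs_nonneg (g v).1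
    exact e1 (abs_eq_zero.1 (by linarith))
  · intro h0
    unfold i123 at h0
    have k := le_max_right (|(g v).1| + pos (g v).2.2.1)
      (|(g v).2.1| + pos (g v).2.2.2 + (g v).2.2.1)
    have k' := abs_nonneg (g v).2.1
    have k2 : (g v).2.2.2 ≤ pos (g v).2.2.2 := le_max_left _ _
    exact e2 (abs_eq_zero.1 (by linarith))

theorem exists_indep {m r : Dyn} (h : ∀ n : Fin 4 → ℤ, dot n m = 0 → dot n r = 0 → n = 0)
    {a b : ℝ} (hab : a < b) : ∃ t, a < t ∧ t < b ∧ Indep (t • m + r) := by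
  have hc : (⋃ n : {n : Fin 4 → ℤ // n ≠ 0}, {t : ℝ | dot n.1 (t • m + r) = 0}).Countable := by
    refine Set.countable_iUnion fun n => Set.Subsingleton.countable ?_
    intro s hs t ht
    simp only [Set.mem_ofPred_eq, dot_add, dot_smul] at hs ht
    by_contra hst
    have h1 : (s - t) * dot n.1 m = 0 := by linarith
    have h2 : dot n.1 m = 0 := by
      rcases mul_eq_zero.1 h1 with h' | h'
      · exact absurd (sub_eq_zero.1 h') hst
      · exact h'
    rw [h2, mul_zero, zero_add] at hs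
    exact n.2 (h n.1 h2 hs)
  obtain ⟨t, ht, h1, h2⟩ := (hc.dense_compl ℝ).exists_between hab
  refine ⟨t, h1, h2, (indep_iff _).2 fun n hn => ?_⟩
  by_contra hn0
  exact ht (Set.mem_iUnion.2 ⟨⟨n, hn0⟩, hn⟩)

theorem dense_filling {v0 : Dyn} (h0 : Indep v0) {O : Set Dyn} (hO : IsOpen O) {v : Dyn}
    (hv : v ∈ O) : ∃ u ∈ O, Filling u := by
  have hc : Continuous fun t : ℝ => t • v0 + v := by fun_prop
  have h1 : (fun t : ℝ => t • v0 + v) ⁻¹' O ∈ nhds (0 : ℝ) := by
    refine (hO.preimage hc).mem_nhds ?_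
    show (0 : ℝ) • v0 + v ∈ O
    rwa [zero_smul, zero_add]
  obtain ⟨e, he, hball⟩ := Metric.mem_nhds_iff.1 h1
  obtain ⟨t, ht1, ht2, ht⟩ := exists_indep (m := v0) (r := v)
    (fun n hn _ => (indep_iff v0).1 h0 n hn) he
  refine ⟨_, hball ?_, ht.filling⟩
  rw [Metric.mem_ball, Real.dist_eq, sub_zero, abs_of_pos ht1]
  exact ht2

end Pool.Agent.Lib.MP_b0c7df_gt
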