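import Pool.Agent.Lib.MP_b0c7df_gt.NF

/-!
The stage maps `h = T₁^(p+1) T₂^(r+1) w`, linear on the cone `a₁ ≥ a₂ ≥ 0`, `b₁ ≥ 0 ≥ b₂`.
-/

namespace Pool.Agent.Lib.MP_b0c7df_gt

/-- The cone on which the stage maps are linear. -/
def Cone (v : Dyn) : Prop := 0 ≤ v.2.1 ∧ v.2.1 ≤ v.1 ∧ 0 ≤ v.2.2.1 ∧ v.2.2.2 ≤ 0

/-- The word `σ₂⁻¹ σ₂⁻¹ σ₁ σ₃⁻¹ σ₂ σ₂`. -/
def w : Equiv.Perm Dyn := σ₂⁻¹ * (σ₂⁻¹ * (σ₁ * (σ₃⁻¹ * (σ₂ * σ₂))))

theorem w_mem : w ∈ Braid :=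
  mul_mem (inv_mem σ₂_mem) (mul_mem (inv_mem σ₂_mem) (mul_mem σ₁_mem
    (mul_mem (inv_mem σ₃_mem) (mul_mem σ₂_mem σ₂_mem))))

theorem w_apply {a1 a2 b1 t : ℝ} (h2 : 0 ≤ a2) (h1 : a2 ≤ a1) (hb : 0 ≤ b1) (ht : 0 ≤ t) :
    w (a1, a2, b1, -t) =
      (2 * a1 + b1 + 2 * t, t, -(3 * a1 + b1 + 2 * t), 2 * a1 + a2 + t) := by
  have e : w (a1, a2, b1, -t) = s2i (s2i (s1 (s3i (s2 (s2 (a1, a2, b1, -t)))))) := rfl
  have e1 : s2 (a1, a2, b1, -t) = (a2 - b1, a1 + t, -t, b1) := by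
    have hc : s2c (a1, a2, b1, -t) = a1 - a2 := by
      simp only [s2c]
      rw [pos_of_nonpos (by linarith : -t ≤ 0), neg_of_nonneg hb]
      ring
    simp only [s2, hc]
    rw [pos_of_nonpos (by linarith : -t ≤ 0), neg_of_nonneg hb, zero_add, pos_of_nonneg hb,
      pos_of_nonneg (by linarith : 0 ≤ a1 - a2), neg_of_nonneg (by linarith : 0 ≤ a1 - a2),
      neg_of_nonpos (by linarith : -t ≤ 0), neg_of_nonpos (by linarith : 0 - (a1 - a2) ≤ 0)]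
    exact Prod.ext (by dsimp only; ring) (Prod.ext (by dsimp only; ring)
      (Prod.ext (by dsimp only; ring) (by dsimp only; ring)))
  have e2 : s2 (a2 - b1, a1 + t, -t, b1) =
      (a2 - b1, a1 + t, a2 - a1 - b1 - 2 * t, a1 - a2 + 2 * b1 + t) := by
    have hc : s2c (a2 - b1, a1 + t, -t, b1) = a2 - a1 - 2 * b1 - 2 * t := by
      simp only [s2c]
      rw [pos_of_nonneg hb, neg_of_nonpos (by linarith : -t ≤ 0)]
      ring
    simp only [s2, hc]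
    rw [pos_of_nonpos (by linarith : -t ≤ 0), pos_of_nonneg hb, neg_of_nonneg hb,
      neg_of_nonpos (by linarith : -t ≤ 0),
      neg_of_nonpos (by linarith : a2 - a1 - 2 * b1 - 2 * t ≤ 0),
      pos_of_nonpos (by linarith : b1 + (a2 - a1 - 2 * b1 - 2 * t) ≤ 0),
      neg_of_nonneg (by linarith : 0 ≤ -t - (a2 - a1 - 2 * b1 - 2 * t))]
    exact Prod.ext (by dsimp only; ring) (Prod.ext (by dsimp only; ring)
      (Prod.ext (by dsimp only; ring) (by dsimp only; ring)))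
  have e3 : s3i (a2 - b1, a1 + t, a2 - a1 - b1 - 2 * t, a1 - a2 + 2 * b1 + t) =
      (a2 - b1, 2 * a1 - a2 + 2 * b1 + 2 * t, a2 - a1 - b1 - 2 * t, -(a1 + t)) := by
    rw [s3i_pp (by linarith) (by linarith)]
    exact Prod.ext rfl (Prod.ext (by dsimp only; ring) rfl)
  have e4 : s1 (a2 - b1, 2 * a1 - a2 + 2 * b1 + 2 * t, a2 - a1 - b1 - 2 * t, -(a1 + t)) =
      (a1 - a2 + b1 + 2 * t + pos (a2 - b1), 2 * a1 - a2 + 2 * b1 + 2 * t, a2 - b1,
        -(a1 + t)) := by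
    simp only [s1]
    rw [pos_of_nonpos (by linarith : a2 - a1 - b1 - 2 * t ≤ 0), add_zero]
    exact Prod.ext (by dsimp only; ring) rfl
  have e5 : s2i (a1 - a2 + b1 + 2 * t + pos (a2 - b1), 2 * a1 - a2 + 2 * b1 + 2 * t, a2 - b1,
        -(a1 + t)) = (2 * a1 + b1 + 2 * t, t - neg (a2 - b1), -(a1 + t), a2 - b1) := by
    have ha : -(a1 + t) ≤ 0 := by linarith
    rcases le_total 0 (a2 - b1) with h | h
    · have hd : s2d (a1 - a2 + b1 + 2 * t + pos (a2 - b1), 2 * a1 - a2 + 2 * b1 + 2 * t, a2 - b1,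
        -(a1 + t)) = a2 - a1 - 2 * b1 := by
        simp only [s2d]
        rw [pos_of_nonneg h, pos_of_nonpos ha, neg_of_nonneg h]
        ring
      simp only [s2i, hd]
      rw [pos_of_nonneg h, pos_of_nonpos ha, neg_of_nonneg h, neg_of_nonpos ha,
        pos_of_nonpos (by linarith : a2 - a1 - 2 * b1 ≤ 0),
        pos_of_nonneg (by linarith : 0 ≤ 0 - (a2 - a1 - 2 * b1)), zero_add,
        neg_of_nonpos (by linarith : a2 - a1 - 2 * b1 ≤ 0)]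
      exact Prod.ext (by dsimp only; ring) (Prod.ext (by dsimp only; ring)
        (Prod.ext (by dsimp only; ring) (by dsimp only; ring)))
    · have hd : s2d (a1 - a2 + b1 + 2 * t + pos (a2 - b1), 2 * a1 - a2 + 2 * b1 + 2 * t, a2 - b1,
        -(a1 + t)) = -a1 - a2 := by
        simp only [s2d]
        rw [pos_of_nonpos h, pos_of_nonpos ha, neg_of_nonpos h]
        ring
      simp only [s2i, hd]
      rw [pos_of_nonpos h, pos_of_nonpos ha, neg_of_nonpos h, neg_of_nonpos ha,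
        pos_of_nonpos (by linarith : -a1 - a2 ≤ 0),
        pos_of_nonneg (by linarith : 0 ≤ 0 - (-a1 - a2)),
        neg_of_nonpos (by linarith : a2 - b1 + (-a1 - a2) ≤ 0)]
      exact Prod.ext (by dsimp only; ring) (Prod.ext (by dsimp only; ring)
        (Prod.ext (by dsimp only; ring) (by dsimp only; ring)))
  have e6 : s2i (2 * a1 + b1 + 2 * t, t - neg (a2 - b1), -(a1 + t), a2 - b1) =
      (2 * a1 + b1 + 2 * t, t, -(3 * a1 + b1 + 2 * t), 2 * a1 + a2 + t) := by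
    have ha : -(a1 + t) ≤ 0 := by linarith
    have hd : s2d (2 * a1 + b1 + 2 * t, t - neg (a2 - b1), -(a1 + t), a2 - b1) =
        3 * a1 + a2 + 2 * t := by
      simp only [s2d]
      rw [neg_of_nonpos ha]
      linarith [pos_add_neg (a2 - b1)]
    have hp : pos (a2 - b1) ≤ a2 := max_le (by linarith) h2
    simp only [s2i, hd]
    rw [pos_of_nonpos ha, neg_of_nonpos ha,
      pos_of_nonneg (by linarith : 0 ≤ 3 * a1 + a2 + 2 * t),
      pos_of_nonpos (by linarith : pos (a2 - b1) - (3 * a1 + a2 + 2 * t) ≤ 0),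
      neg_of_nonneg (by linarith : 0 ≤ -(a1 + t) + (3 * a1 + a2 + 2 * t))]
    exact Prod.ext (by dsimp only; ring) (Prod.ext (by dsimp only; ring)
      (Prod.ext (by dsimp only; ring) (by dsimp only; ring)))
  rw [e, e1, e2, e3, e4, e5, e6]

/-- The stage map. -/
def hmap (p r : ℕ) : Equiv.Perm Dyn := σ₁ ^ (p + 1) * (σ₃⁻¹ ^ (r + 1) * w)

theorem hmap_mem (p r : ℕ) : hmap p r ∈ Braid :=
  mul_mem (σ₁_pow_mem _) (mul_mem (σ₃_pow_mem _) w_mem)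

theorem hmap_apply {a1 a2 b1 t : ℝ} (h2 : 0 ≤ a2) (h1 : a2 ≤ a1) (hb : 0 ≤ b1) (ht : 0 ≤ t)
    (p r : ℕ) :
    hmap p r (a1, a2, b1, -t) =
      (5 * a1 + 2 * b1 + 4 * t, 2 * a1 + a2 + 2 * t,
        2 * a1 + b1 + 2 * t + p * (5 * a1 + 2 * b1 + 4 * t),
        -(t + r * (2 * a1 + a2 + 2 * t))) := by
  have e : hmap p r (a1, a2, b1, -t) = (σ₁ ^ (p + 1)) ((σ₃⁻¹ ^ (r + 1)) (w (a1, a2, b1, -t))) := rfl
  rw [e, w_apply h2 h1 hb ht, T2_succ ht (by linarith), T1_succ (by linarith) (by linarith)]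
  exact Prod.ext (by dsimp only; ring) (Prod.ext (by dsimp only; ring)
    (Prod.ext (by dsimp only; ring) (by dsimp only; ring)))

theorem Cone.exists {v : Dyn} (h : Cone v) : ∃ a1 a2 b1 t : ℝ, v = (a1, a2, b1, -t) ∧ 0 ≤ a2 ∧
    a2 ≤ a1 ∧ 0 ≤ b1 ∧ 0 ≤ t := by
  obtain ⟨a1, a2, b1, b2⟩ := v
  obtain ⟨h1, h2, h3, h4⟩ := h
  dsimp only at h1 h2 h3 h4
  exact ⟨a1, a2, b1, -b2, by rw [neg_neg], h1, h2, h3, by linarith⟩

theorem Cone.hmap {v : Dyn} (h : Cone v) (p r : ℕ) : Cone (hmap p r v) := by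
  obtain ⟨a1, a2, b1, t, rfl, h1, h2, h3, h4⟩ := h.exists
  rw [hmap_apply h1 h2 h3 h4]
  have e1 : (0 : ℝ) ≤ p * (5 * a1 + 2 * b1 + 4 * t) :=
    mul_nonneg (Nat.cast_nonneg _) (by linarith)
  have e2 : (0 : ℝ) ≤ r * (2 * a1 + a2 + 2 * t) := mul_nonneg (Nat.cast_nonneg _) (by linarith)
  refine ⟨?_, ?_, ?_, ?_⟩ <;> dsimp only <;> linarith

theorem isClosed_cone : IsClosed {v | Cone v} := by
  unfold Cone
  refine IsClosed.and ?_ (IsClosed.and ?_ (IsClosed.and ?_ ?_))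
  · exact isClosed_le (by fun_prop) (by fun_prop)
  · exact isClosed_le (by fun_prop) (by fun_prop)
  · exact isClosed_le (by fun_prop) (by fun_prop)
  · exact isClosed_le (by fun_prop) (by fun_prop)

end Pool.Agent.Lib.MP_b0c7df_gt
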