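import Pool.Agent.Lib.MP_b0c7df_gt.Rat
import Pool.Agent.Lib.MP_b0c7df_gt.Stage
import Mathlib.Analysis.SpecificLimits.Basic

/-!
The sequence of stages and its two limits.
-/

namespace Pool.Agent.Lib.MP_b0c7df_gt

open Filter Topology

/-- A stage: an element `g` of the group, the images `U`, `W`, `A`, `B` of the four generators of
the cone, and two numbers `α`, `β`. -/
structure St where
  g : Equiv.Perm Dyn
  U : Dyn
  W : Dyn
  A : Dyn
  B : Dyn
  α : ℝ
  β : ℝ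

/-- The second to last coordinate after one more step. -/
noncomputable def nextA (s : St) (p : ℕ) : Dyn := (2 : ℝ) • s.U + (2 * p + 1 : ℝ) • s.A

/-- One more step. -/
noncomputable def step (s : St) (p r : ℕ) : St where
  g := s.g * hmap p r
  U := (5 : ℝ) • s.U + (2 : ℝ) • s.W + (5 * p + 2 : ℝ) • s.A + (2 * r : ℝ) • s.B
  W := s.W + (r : ℝ) • s.B
  A := nextA s p
  B := (2 : ℝ) • nextA s p + (2 : ℝ) • s.W + (2 * r + 1 : ℝ) • s.B
  α := (2 * p + 1) * s.α
  β := (2 * r + 1) * s.β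

/-- The first stage. -/
def init : St where
  g := 1
  U := (1, 0, 0, 0)
  W := (0, 1, 0, 0)
  A := (0, 0, 1, 0)
  B := (0, 0, 0, -1)
  α := 1
  β := 1

/-- The pairings with integral vectors are integers. -/
def IntV (v : Dyn) : Prop := ∀ n : Fin 4 → ℤ, ∃ z : ℤ, dot n v = z

theorem IntV.add {u v : Dyn} (hu : IntV u) (hv : IntV v) : IntV (u + v) := by
  intro n
  obtain ⟨a, ha⟩ := hu n
  obtain ⟨b, hb⟩ := hv n
  exact ⟨a + b, by rw [dot_add, ha, hb, Int.cast_add]⟩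

theorem IntV.smul {v : Dyn} (hv : IntV v) {c : ℝ} (m : ℤ) (hc : c = m) : IntV (c • v) := by
  intro n
  obtain ⟨b, hb⟩ := hv n
  exact ⟨m * b, by rw [dot_smul, hb, hc, Int.cast_mul]⟩

/-- The invariants of the construction. -/
structure Good (s : St) : Prop where
  mem : s.g ∈ Braid
  lin : ∀ a1 a2 b1 t : ℝ, 0 ≤ a2 → a2 ≤ a1 → 0 ≤ b1 → 0 ≤ t →
    s.g (a1, a2, b1, -t) = a1 • s.U + a2 • s.W + b1 • s.A + t • s.B
  intU : IntV s.U
  intW : IntV s.W
  intA : IntV s.A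
  intB : IntV s.B
  one_le_α : 1 ≤ s.α
  one_le_β : 1 ≤ s.β
  ind : ∀ n, dot n s.U = 0 → dot n s.W = 0 → dot n s.A = 0 → dot n s.B = 0 → n = 0

theorem good_init : Good init := by
  refine ⟨one_mem _, ?_, ?_, ?_, ?_, ?_, le_refl _, le_refl _, ?_⟩
  · intro a1 a2 b1 t _ _ _ _
    simp [init]
  · intro n
    exact ⟨n 0, by simp [init, dot]⟩
  · intro n
    exact ⟨n 1, by simp [init, dot]⟩
  · intro n
    exact ⟨n 2, by simp [init, dot]⟩
  · intro n
    exact ⟨-n 3, by simp [init, dot]⟩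
  · intro n h0 h1 h2 h3
    simp only [init, dot, mul_one, mul_zero, add_zero, zero_add, mul_neg, neg_eq_zero,
      Int.cast_eq_zero] at h0 h1 h2 h3
    funext i
    fin_cases i
    · exact h0
    · exact h1
    · exact h2
    · exact h3

theorem Good.step {s : St} (h : Good s) (p r : ℕ) : Good (step s p r) := by
  have hA : IntV (nextA s p) :=
    (h.intU.smul 2 (by norm_num)).add (h.intA.smul (2 * p + 1) (by push_cast; ring))
  refine ⟨mul_mem h.mem (hmap_mem p r), ?_, ?_, ?_, hA, ?_, ?_, ?_, ?_⟩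
  · intro a1 a2 b1 t h2 h1 h3 h4
    have e : (MP_b0c7df_gt.step s p r).g (a1, a2, b1, -t) = s.g (hmap p r (a1, a2, b1, -t)) := rfl
    have e1 : (0 : ℝ) ≤ p * (5 * a1 + 2 * b1 + 4 * t) :=
      mul_nonneg (Nat.cast_nonneg _) (by linarith)
    have e2 : (0 : ℝ) ≤ r * (2 * a1 + a2 + 2 * t) := mul_nonneg (Nat.cast_nonneg _) (by linarith)
    rw [e, hmap_apply h2 h1 h3 h4, h.lin _ _ _ _ (by linarith) (by linarith) (by linarith)
      (by linarith)]
    simp only [MP_b0c7df_gt.step, nextA]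
    module
  · exact (((h.intU.smul 5 (by norm_num)).add (h.intW.smul 2 (by norm_num))).add
      (h.intA.smul (5 * p + 2) (by push_cast; ring))).add
      (h.intB.smul (2 * r) (by push_cast; ring))
  · exact h.intW.add (h.intB.smul r (by push_cast; ring))
  · exact ((hA.smul 2 (by norm_num)).add (h.intW.smul 2 (by norm_num))).add
      (h.intB.smul (2 * r + 1) (by push_cast; ring))
  · have := h.one_le_α
    have hp : (0 : ℝ) ≤ p := Nat.cast_nonneg _
    show 1 ≤ (2 * p + 1) * s.α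
    nlinarith
  · have := h.one_le_β
    have hp : (0 : ℝ) ≤ r := Nat.cast_nonneg _
    show 1 ≤ (2 * r + 1) * s.β
    nlinarith
  · intro n h0 h1 h2 h3
    simp only [MP_b0c7df_gt.step, nextA, dot_add, dot_smul] at h0 h1 h2 h3
    have hB : dot n s.B = 0 := by linarith
    rw [hB, mul_zero, add_zero] at h0 h1 h3
    rw [h1] at h0 h3
    have hA : dot n s.A = 0 := by linarith
    rw [hA, mul_zero, add_zero] at h2
    exact h.ind n (by linarith) h1 hA hB

/-- The growth conditions. -/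
def Growth (k : ℕ) (s : St) (p r : ℕ) : Prop :=
  (∃ L : ℝ, 1 ≤ L ∧ (∀ u v, nm (s.g u - s.g v) ≤ L * nm (u - v)) ∧
    4 ^ (k + 3) * (1 + nm s.U + L * s.β) ≤ p) ∧
  4 ^ (k + 3) * (1 + nm (nextA s p) + nm s.W + p * s.α) ≤ r

theorem exists_growth (k : ℕ) {s : St} (h : Good s) : ∃ p r, Growth k s p r := by
  obtain ⟨L, hL, hL'⟩ := (nice_of_mem h.mem).1.lip
  obtain ⟨p, hp⟩ := exists_nat_ge (4 ^ (k + 3) * (1 + nm s.U + L * s.β))
  obtain ⟨r, hr⟩ := exists_nat_ge (4 ^ (k + 3) * (1 + nm (nextA s p) + nm s.W + p * s.α))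
  exact ⟨p, r, ⟨L, hL, hL', hp⟩, hr⟩

theorem exists_seq : ∃ (s : ℕ → St) (p r : ℕ → ℕ), s 0 = init ∧ (∀ k, Good (s k)) ∧
    (∀ k, s (k + 1) = step (s k) (p k) (r k)) ∧ ∀ k, Growth k (s k) (p k) (r k) := by
  have h : ∀ (k : ℕ) (s : {s // Good s}), ∃ pr : ℕ × ℕ, Growth k s.1 pr.1 pr.2 := by
    intro k s
    obtain ⟨p, r, h⟩ := exists_growth k s.2
    exact ⟨(p, r), h⟩
  choose F hF using h
  let s : ℕ → {s // Good s} := fun k => Nat.rec ⟨init, good_init⟩
    (fun k t => ⟨step t.1 (F k t).1 (F k t).2, t.2.step _ _⟩) k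
  exact ⟨fun k => (s k).1, fun k => (F k (s k)).1, fun k => (F k (s k)).2, rfl,
    fun k => (s k).2, fun k => rfl, fun k => hF k (s k)⟩

theorem dist_le_nm (u v : Dyn) : dist u v ≤ nm (u - v) := by
  rw [Prod.dist_eq, Prod.dist_eq, Prod.dist_eq, Real.dist_eq, Real.dist_eq, Real.dist_eq,
    Real.dist_eq]
  have h1 := abs_nonneg (u.1 - v.1)
  have h2 := abs_nonneg (u.2.1 - v.2.1)
  have h3 := abs_nonneg (u.2.2.1 - v.2.2.1)
  have h4 := abs_nonneg (u.2.2.2 - v.2.2.2)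
  have e : nm (u - v) = |u.1 - v.1| + |u.2.1 - v.2.1| + |u.2.2.1 - v.2.2.1| +
    |u.2.2.2 - v.2.2.2| := rfl
  rw [e]
  exact max_le (by linarith) (max_le (by linarith) (max_le (by linarith) (by linarith)))

theorem exists_lim (x : ℕ → Dyn) (α : ℕ → ℝ) (h1 : ∀ k, 1 ≤ α k) (hm : ∀ k, α k ≤ α (k + 1))
    (h : ∀ k, α k * nm (x (k + 1) - x k) ≤ (1 / 4) ^ (k + 3)) :
    ∃ m, ∀ k, α k * nm (x k - m) ≤ (1 / 4) ^ (k + 2) := by
  have hmono : Monotone α := monotone_nat_of_le_succ hm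
  have hd : ∀ k, dist (x k) (x (k + 1)) ≤ 1 * (1 / 4) ^ k := by
    intro k
    have h0 := nm_nonneg (x (k + 1) - x k)
    have h2 : nm (x (k + 1) - x k) ≤ α k * nm (x (k + 1) - x k) := by nlinarith [h1 k]
    have h3 : ((1 : ℝ) / 4) ^ (k + 3) ≤ (1 / 4) ^ k :=
      pow_le_pow_of_le_one (by norm_num) (by norm_num) (by omega)
    have h4 := dist_le_nm (x k) (x (k + 1))
    rw [nm_sub_comm] at h4
    linarith [h k]
  have hc : CauchySeq x := cauchySeq_of_le_geometric (1 / 4) 1 (by norm_num) hd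
  obtain ⟨m, hm'⟩ := cauchySeq_tendsto_of_complete hc
  refine ⟨m, fun k => ?_⟩
  have key : ∀ i, α k * nm (x (k + i) - x k) ≤ (1 / 4) ^ (k + 2) * (1 - (1 / 4) ^ i) := by
    intro i
    induction i with
    | zero => rw [add_zero, sub_self, nm_zero, mul_zero, pow_zero, sub_self, mul_zero]
    | succ i ih =>
      have t := nm_tri (x (k + i + 1)) (x (k + i)) (x k)
      have h2 := h (k + i)
      have h3 := nm_nonneg (x (k + i + 1) - x (k + i))
      have h4 : α k ≤ α (k + i) := hmono (by omega)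
      have h5 : α k * nm (x (k + i + 1) - x (k + i)) ≤ (1 / 4) ^ (k + i + 3) :=
        (mul_le_mul_of_nonneg_right h4 h3).trans h2
      have h6 : α k * nm (x (k + i + 1) - x k) ≤
          α k * (nm (x (k + i + 1) - x (k + i)) + nm (x (k + i) - x k)) :=
        mul_le_mul_of_nonneg_left t (by linarith [h1 k])
      have e1 : ((1 : ℝ) / 4) ^ (k + i + 3) = (1 / 4) ^ (k + 2) * (1 / 4) ^ i * (1 / 4) := by
        rw [← pow_add, ← pow_succ]
        ring_nf
      have e2 : ((1 : ℝ) / 4) ^ (i + 1) = (1 / 4) ^ i * (1 / 4) := pow_succ _ _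
      have e3 : (0 : ℝ) ≤ (1 / 4) ^ (k + 2) * (1 / 4) ^ i := by positivity
      rw [← add_assoc k i 1, e2]
      rw [e1] at h5
      linarith
  have ht : Tendsto (fun i => α k * nm (x (k + i) - x k)) atTop (𝓝 (α k * nm (m - x k))) := by
    have h2 : Tendsto (fun i => x (k + i)) atTop (𝓝 m) := by
      have h3 := (tendsto_add_atTop_iff_nat k).2 hm'
      refine h3.congr fun i => ?_
      rw [add_comm]
    have hcont : Continuous fun y : Dyn => α k * nm (y - x k) := by fun_prop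
    exact (hcont.tendsto m).comp h2
  rw [nm_sub_comm]
  refine le_of_tendsto' ht fun i => (key i).trans ?_
  have e1 : (0 : ℝ) ≤ (1 / 4) ^ (k + 2) := by positivity
  have e2 : (0 : ℝ) ≤ (1 / 4) ^ i := by positivity
  nlinarith

theorem abs_dot_le (n : Fin 4 → ℤ) : ∃ N : ℝ, 0 ≤ N ∧ ∀ v, |dot n v| ≤ N * nm v := by
  refine ⟨|(n 0 : ℝ)| + |(n 1 : ℝ)| + |(n 2 : ℝ)| + |(n 3 : ℝ)|, by positivity, fun v => ?_⟩
  have a0 := abs_nonneg (n 0 : ℝ)
  have a1 := abs_nonneg (n 1 : ℝ)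
  have a2 := abs_nonneg (n 2 : ℝ)
  have a3 := abs_nonneg (n 3 : ℝ)
  have b0 := abs_nonneg v.1
  have b1 := abs_nonneg v.2.1
  have b2 := abs_nonneg v.2.2.1
  have b3 := abs_nonneg v.2.2.2
  have h1 : |dot n v| ≤ |(n 0 : ℝ) * v.1| + |(n 1 : ℝ) * v.2.1| + |(n 2 : ℝ) * v.2.2.1| +
      |(n 3 : ℝ) * v.2.2.2| := by
    unfold dot
    refine (abs_add_le _ _).trans (add_le_add_left ?_ _)
    exact (abs_add_le _ _).trans (add_le_add_left (abs_add_le _ _) _)
  rw [abs_mul, abs_mul, abs_mul, abs_mul] at h1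
  unfold nm
  nlinarith [mul_nonneg a0 b1, mul_nonneg a0 b2, mul_nonneg a0 b3, mul_nonneg a1 b0,
    mul_nonneg a1 b2, mul_nonneg a1 b3, mul_nonneg a2 b0, mul_nonneg a2 b1, mul_nonneg a2 b3,
    mul_nonneg a3 b0, mul_nonneg a3 b1, mul_nonneg a3 b2]

theorem nm_sub_smul {a : ℝ} (ha : 0 < a) (u v : Dyn) :
    a * nm (a⁻¹ • u - v) = nm (u - a • v) := by
  have e : u - a • v = a • (a⁻¹ • u - v) := by
    rw [smul_sub, smul_smul, mul_inv_cancel₀ ha.ne', one_smul]
  rw [e, nm_smul, abs_of_pos ha]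

/-- Everything that the construction gives. -/
theorem exists_data : ∃ (s : ℕ → St) (p r : ℕ → ℕ) (m1 m2 : Dyn) (x : ℝ), s 0 = init ∧
    (∀ k, Good (s k)) ∧ (∀ k, s (k + 1) = step (s k) (p k) (r k)) ∧
    (∀ k, Growth k (s k) (p k) (r k)) ∧
    (∀ k, nm ((s k).A - (s k).α • m1) ≤ (1 / 4) ^ (k + 2)) ∧
    (∀ k, nm ((s k).B - (s k).β • m2) ≤ (1 / 4) ^ (k + 2)) ∧ 1 < x ∧ x < 2 ∧
    Indep (x • m1 + m2) := by
  obtain ⟨s, p, r, hs0, hg, hs, hgr⟩ := exists_seq
  have hα : ∀ k, 0 < (s k).α := fun k => by linarith [(hg k).one_le_α]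
  have hβ : ∀ k, 0 < (s k).β := fun k => by linarith [(hg k).one_le_β]
  have h4 : ∀ k, (0 : ℝ) < 4 ^ (k + 3) := fun k => by positivity
  have hpow : ∀ k, (4 : ℝ) ^ (k + 3) * (1 / 4) ^ (k + 3) = 1 := fun k => by
    rw [← mul_pow]
    norm_num
  have hp0 : ∀ k, (0 : ℝ) < p k ∧ 4 ^ (k + 3) * nm (s k).U ≤ p k := by
    intro k
    obtain ⟨⟨L, hL, _, hp⟩, _⟩ := hgr k
    have h1 := nm_nonneg (s k).U
    have h2 : 0 < L * (s k).β := mul_pos (by linarith) (hβ k)
    have h3 := h4 k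
    constructor
    · nlinarith
    · nlinarith
  have hr0 : ∀ k, (0 : ℝ) < r k ∧ 4 ^ (k + 3) * (nm (s (k + 1)).A + nm (s k).W) ≤ r k := by
    intro k
    obtain ⟨_, hr⟩ := hgr k
    have h1 := nm_nonneg (s k).W
    have h2 : 0 < p k * (s k).α := mul_pos (hp0 k).1 (hα k)
    have h3 := h4 k
    have h5 := nm_nonneg (nextA (s k) (p k))
    have e : (s (k + 1)).A = nextA (s k) (p k) := by rw [hs k]; rfl
    rw [e]
    constructor
    · nlinarith
    · nlinarith
  have eα : ∀ k, (s (k + 1)).α = (2 * p k + 1) * (s k).α := fun k => by rw [hs k]; rfl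
  have eβ : ∀ k, (s (k + 1)).β = (2 * r k + 1) * (s k).β := fun k => by rw [hs k]; rfl
  have eA : ∀ k, (s (k + 1)).A = (2 : ℝ) • (s k).U + (2 * p k + 1 : ℝ) • (s k).A :=
    fun k => by rw [hs k]; rfl
  have eB : ∀ k, (s (k + 1)).B = (2 : ℝ) • (s (k + 1)).A + (2 : ℝ) • (s k).W +
    (2 * r k + 1 : ℝ) • (s k).B := fun k => by rw [hs k]; rfl
  obtain ⟨m1, hm1⟩ := exists_lim (fun k => (s k).α⁻¹ • (s k).A) (fun k => (s k).α)
    (fun k => (hg k).one_le_α) (fun k => by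
      show (s k).α ≤ (s (k + 1)).α
      rw [eα]
      nlinarith [(hp0 k).1, hα k]) (fun k => by
      show (s k).α * nm ((s (k + 1)).α⁻¹ • (s (k + 1)).A - (s k).α⁻¹ • (s k).A) ≤ _
      have hq : (0 : ℝ) < 2 * p k + 1 := by linarith [(hp0 k).1]
      have e : (s (k + 1)).α⁻¹ • (s (k + 1)).A - (s k).α⁻¹ • (s k).A =
          ((2 * p k + 1 : ℝ)⁻¹ * (s k).α⁻¹ * 2) • (s k).U := by
        rw [eα, eA, mul_inv, smul_add, smul_smul, smul_smul]
        have : (2 * (p k : ℝ) + 1)⁻¹ * (s k).α⁻¹ * (2 * p k + 1) = (s k).α⁻¹ := by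
          rw [mul_right_comm, inv_mul_cancel₀ hq.ne', one_mul]
        rw [this, add_sub_cancel_right]
      have hα0 := hα k
      have hi : (0 : ℝ) < (2 * (p k : ℝ) + 1)⁻¹ := inv_pos.2 hq
      rw [e, nm_smul, abs_of_nonneg (by positivity)]
      have e2 : (s k).α * ((2 * (p k : ℝ) + 1)⁻¹ * (s k).α⁻¹ * 2 * nm (s k).U) =
          (2 * (p k : ℝ) + 1)⁻¹ * (2 * nm (s k).U) * ((s k).α * (s k).α⁻¹) := by ring
      rw [e2, mul_inv_cancel₀ hα0.ne', mul_one, inv_mul_le_iff₀ hq]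
      have h1 := (hp0 k).2
      have h2 := mul_le_mul_of_nonneg_right h1
        (by positivity : (0 : ℝ) ≤ (1 / 4) ^ (k + 3))
      have h3 : (4 : ℝ) ^ (k + 3) * nm (s k).U * (1 / 4) ^ (k + 3) = nm (s k).U := by
        rw [mul_right_comm, hpow, one_mul]
      rw [h3] at h2
      have h5 : (0 : ℝ) ≤ (1 / 4) ^ (k + 3) := by positivity
      nlinarith)
  obtain ⟨m2, hm2⟩ := exists_lim (fun k => (s k).β⁻¹ • (s k).B) (fun k => (s k).β)
    (fun k => (hg k).one_le_β) (fun k => by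
      show (s k).β ≤ (s (k + 1)).β
      rw [eβ]
      nlinarith [(hr0 k).1, hβ k]) (fun k => by
      show (s k).β * nm ((s (k + 1)).β⁻¹ • (s (k + 1)).B - (s k).β⁻¹ • (s k).B) ≤ _
      have hq : (0 : ℝ) < 2 * r k + 1 := by linarith [(hr0 k).1]
      have e : (s (k + 1)).β⁻¹ • (s (k + 1)).B - (s k).β⁻¹ • (s k).B =
          ((2 * r k + 1 : ℝ)⁻¹ * (s k).β⁻¹ * 2) • ((s (k + 1)).A + (s k).W) := by
        rw [eβ, eB, mul_inv, ← smul_add (2 : ℝ) (s (k + 1)).A (s k).W, smul_add, smul_smul,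
          smul_smul]
        have : (2 * (r k : ℝ) + 1)⁻¹ * (s k).β⁻¹ * (2 * r k + 1) = (s k).β⁻¹ := by
          rw [mul_right_comm, inv_mul_cancel₀ hq.ne', one_mul]
        rw [this, add_sub_cancel_right]
      have hβ0 := hβ k
      have hi : (0 : ℝ) < (2 * (r k : ℝ) + 1)⁻¹ := inv_pos.2 hq
      rw [e, nm_smul, abs_of_nonneg (by positivity)]
      have e2 : (s k).β * ((2 * (r k : ℝ) + 1)⁻¹ * (s k).β⁻¹ * 2 *
          nm ((s (k + 1)).A + (s k).W)) = (2 * (r k : ℝ) + 1)⁻¹ *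
          (2 * nm ((s (k + 1)).A + (s k).W)) * ((s k).β * (s k).β⁻¹) := by ring
      rw [e2, mul_inv_cancel₀ hβ0.ne', mul_one, inv_mul_le_iff₀ hq]
      have h1 := (hr0 k).2
      have h2 := mul_le_mul_of_nonneg_right h1
        (by positivity : (0 : ℝ) ≤ (1 / 4) ^ (k + 3))
      have h3 : (4 : ℝ) ^ (k + 3) * (nm (s (k + 1)).A + nm (s k).W) * (1 / 4) ^ (k + 3) =
          nm (s (k + 1)).A + nm (s k).W := by
        rw [mul_right_comm, hpow, one_mul]
      rw [h3] at h2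
      have h5 : (0 : ℝ) ≤ (1 / 4) ^ (k + 3) := by positivity
      have h6 := nm_add (s (k + 1)).A (s k).W
      nlinarith)
  have hA : ∀ k, nm ((s k).A - (s k).α • m1) ≤ (1 / 4) ^ (k + 2) := fun k => by
    rw [← nm_sub_smul (hα k)]
    exact hm1 k
  have hB : ∀ k, nm ((s k).B - (s k).β • m2) ≤ (1 / 4) ^ (k + 2) := fun k => by
    rw [← nm_sub_smul (hβ k)]
    exact hm2 k
  have hind : ∀ n : Fin 4 → ℤ, dot n m1 = 0 → dot n m2 = 0 → n = 0 := by
    intro n h1 h2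
    obtain ⟨N, hN, hN'⟩ := abs_dot_le n
    obtain ⟨K, hK⟩ := exists_pow_lt_of_lt_one (by positivity : 0 < 1 / (N + 1))
      (by norm_num : (1 / 4 : ℝ) < 1)
    have hsmall : ∀ k, K ≤ k → N * (1 / 4) ^ (k + 2) < 1 := by
      intro k hk
      have h3 : ((1 : ℝ) / 4) ^ (k + 2) ≤ (1 / 4) ^ K :=
        pow_le_pow_of_le_one (by norm_num) (by norm_num) (by omega)
      have h4 : (1 / 4 : ℝ) ^ (k + 2) < 1 / (N + 1) := h3.trans_lt hK
      rw [lt_div_iff₀ (by linarith)] at h4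
      have h5 : (0 : ℝ) < (1 / 4) ^ (k + 2) := by positivity
      nlinarith
    have hz : ∀ v : Dyn, IntV v → |dot n v| < 1 → dot n v = 0 := by
      intro v hv h
      obtain ⟨z, hz⟩ := hv n
      rw [hz] at h ⊢
      have h' : |z| < 1 := by exact_mod_cast h
      rw [Int.abs_lt_one_iff] at h'
      rw [h', Int.cast_zero]
    have hAk : ∀ k, K ≤ k → dot n (s k).A = 0 := by
      intro k hk
      apply hz _ (hg k).intA
      have e : dot n (s k).A = dot n ((s k).A - (s k).α • m1) := by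
        have := dot_add n ((s k).A - (s k).α • m1) ((s k).α • m1)
        rw [sub_add_cancel, dot_smul, h1, mul_zero, add_zero] at this
        exact this
      rw [e]
      exact ((hN' _).trans (mul_le_mul_of_nonneg_left (hA k) hN)).trans_lt (hsmall k hk)
    have hBk : ∀ k, K ≤ k → dot n (s k).B = 0 := by
      intro k hk
      apply hz _ (hg k).intB
      have e : dot n (s k).B = dot n ((s k).B - (s k).β • m2) := by
        have := dot_add n ((s k).B - (s k).β • m2) ((s k).β • m2)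
        rw [sub_add_cancel, dot_smul, h2, mul_zero, add_zero] at this
        exact this
      rw [e]
      exact ((hN' _).trans (mul_le_mul_of_nonneg_left (hB k) hN)).trans_lt (hsmall k hk)
    have a0 := hAk K le_rfl
    have a1 := hAk (K + 1) (by omega)
    have b0 := hBk K le_rfl
    have b1 := hBk (K + 1) (by omega)
    rw [eB, dot_add, dot_add, dot_smul, dot_smul, dot_smul, a1, b0] at b1
    rw [eA, dot_add, dot_smul, dot_smul, a0] at a1
    exact (hg K).ind n (by linarith) (by linarith) a0 b0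
  obtain ⟨x, hx1, hx2, hx⟩ := exists_indep hind (by norm_num : (1 : ℝ) < 2)
  exact ⟨s, p, r, m1, m2, x, hs0, hg, hs, hgr, hA, hB, hx1, hx2, hx⟩

end Pool.Agent.Lib.MP_b0c7df_gt
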