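import Pool.Agent.Lib.MP_b0c7df_gt.Seq
import Pool.Agent.Lib.MP_b0c7df_gt.Cell

/-!
Arbitrarily small neighbourhoods of a filling lamination are separated by nonfilling walls.
-/

namespace Pool.Agent.Lib.MP_b0c7df_gt

open Filter Topology

/-- The last inequality of the slab estimate. -/
theorem ratio_bounds {p ρ α β x c a1 a2 b1 t : ℝ} (hα : 1 ≤ α) (hβ : 1 ≤ β) (hx1 : 1 < x)
    (hx2 : x < 2) (hp : 64 * β ≤ p) (hρ1 : 3 / 2 * (p * α) ≤ ρ * x * β)
    (hρ2 : ρ * x * β ≤ 8 / 5 * (p * α)) (hρ : 0 ≤ ρ) (hc : 0 < c)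
    (h1 : p * a1 ≤ b1) (h2 : b1 ≤ (p + 1) * a1) (h3 : ρ * a2 ≤ t)
    (hX : |b1 * α - c * x| ≤ c / 80) (hY : |t * β - c| ≤ c / 80) :
    a2 < a1 ∧ (t ≤ (ρ + 2) * a2 → a1 < 2 * a2) := by
  have hX' := abs_le.1 hX
  have hY' := abs_le.1 hY
  have hp64 : 64 ≤ p := by linarith
  have hpα : 0 < p * α := mul_pos (by linarith) (by linarith)
  have hcx : c ≤ c * x := by nlinarith
  have hαβ : 0 < α * β := mul_pos (by linarith) (by linarith)
  have hρβ : 0 ≤ ρ * β := mul_nonneg hρ (by linarith)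
  constructor
  · by_contra hcon
    have hcon' : a1 ≤ a2 := not_lt.1 hcon
    have k1 : ρ * b1 ≤ (p + 1) * t := by
      have e1 : ρ * b1 ≤ ρ * ((p + 1) * a1) := mul_le_mul_of_nonneg_left h2 hρ
      have e2 : (p + 1) * (ρ * a1) ≤ (p + 1) * (ρ * a2) :=
        mul_le_mul_of_nonneg_left (mul_le_mul_of_nonneg_left hcon' hρ) (by linarith)
      have e3 : (p + 1) * (ρ * a2) ≤ (p + 1) * t := mul_le_mul_of_nonneg_left h3 (by linarith)
      linarith
    have k2 : ρ * β * (b1 * α) ≤ (p + 1) * α * (t * β) := by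
      have := mul_le_mul_of_nonneg_right k1 hαβ.le
      linarith
    have k3 : ρ * β * (c * x * (79 / 80)) ≤ ρ * β * (b1 * α) :=
      mul_le_mul_of_nonneg_left (by linarith) hρβ
    have k4 : (p + 1) * α * (t * β) ≤ (p + 1) * α * (c * (81 / 80)) :=
      mul_le_mul_of_nonneg_left (by linarith) (mul_nonneg (by linarith) (by linarith))
    have k5 := mul_le_mul_of_nonneg_right hρ1 (by positivity : 0 ≤ c * (79 / 80))
    have k6 : (p + 1) * α ≤ 65 / 64 * (p * α) := by nlinarith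
    have k7 := mul_le_mul_of_nonneg_right k6 (by positivity : 0 ≤ c * (81 / 80))
    have k8 : 0 < p * α * c := mul_pos hpα hc
    linarith
  · intro ht
    by_contra hcon
    have hcon' : 2 * a2 ≤ a1 := not_lt.1 hcon
    have k1 : 2 * p * t ≤ (ρ + 2) * b1 := by
      have e1 : 2 * p * t ≤ 2 * p * ((ρ + 2) * a2) := mul_le_mul_of_nonneg_left ht (by linarith)
      have e2 : p * (ρ + 2) * (2 * a2) ≤ p * (ρ + 2) * a1 :=
        mul_le_mul_of_nonneg_left hcon' (mul_nonneg (by linarith) (by linarith))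
      have e3 : (ρ + 2) * (p * a1) ≤ (ρ + 2) * b1 := mul_le_mul_of_nonneg_left h1 (by linarith)
      linarith
    have k2 : 2 * (p * α) * (t * β) ≤ (ρ + 2) * β * (b1 * α) := by
      have := mul_le_mul_of_nonneg_right k1 hαβ.le
      linarith
    have k3 : 2 * (p * α) * (c * (79 / 80)) ≤ 2 * (p * α) * (t * β) :=
      mul_le_mul_of_nonneg_left (by linarith) (by linarith)
    have k4 : (ρ + 2) * β * (b1 * α) ≤ (ρ + 2) * β * (c * x * (81 / 80)) :=
      mul_le_mul_of_nonneg_left (by linarith) (mul_nonneg (by linarith) (by linarith))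
    have k5 := mul_le_mul_of_nonneg_right hρ2 (by positivity : 0 ≤ c * (81 / 80))
    have k6 : 2 * β * x ≤ 1 / 16 * (p * α) := by
      have e1 : 64 * β ≤ p * α := by nlinarith
      nlinarith
    have k7 := mul_le_mul_of_nonneg_right k6 (by positivity : 0 ≤ c * (81 / 80))
    have k8 : 0 < p * α * c := mul_pos hpα hc
    linarith

/-- The two limits are almost the two curves. -/
theorem lower_bound {m1 m2 : Dyn} (h1 : nm ((0, 0, 1, 0) - m1) ≤ 1 / 16)
    (h2 : nm ((0, 0, 0, -1) - m2) ≤ 1 / 16) (S T : ℝ) :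
    15 / 16 * (|S| + |T|) ≤ nm (S • m1 + T • m2) := by
  have e : (S • ((0, 0, 1, 0) : Dyn) + T • ((0, 0, 0, -1) : Dyn)) =
      (S • m1 + T • m2) + (S • ((0, 0, 1, 0) - m1) + T • ((0, 0, 0, -1) - m2)) := by
    rw [smul_sub, smul_sub]
    abel
  have e1 : nm (S • ((0, 0, 1, 0) : Dyn) + T • ((0, 0, 0, -1) : Dyn)) = |S| + |T| := by
    simp [nm]
  have k1 := nm_add (S • m1 + T • m2) (S • ((0, 0, 1, 0) - m1) + T • ((0, 0, 0, -1) - m2))
  have k2 := nm_add (S • ((0, 0, 1, 0) - m1)) (T • ((0, 0, 0, -1) - m2))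
  rw [nm_smul, nm_smul] at k2
  rw [← e, e1] at k1
  have k3 := mul_le_mul_of_nonneg_left h1 (abs_nonneg S)
  have k4 := mul_le_mul_of_nonneg_left h2 (abs_nonneg T)
  linarith

/-- The slab estimate. -/
theorem slab {s : St} (hs : Good s) {p ρ : ℕ} {L δ x c : ℝ} {m1 m2 v κ : Dyn}
    (hLip : ∀ u v, nm (s.g u - s.g v) ≤ L * nm (u - v)) (hδ0 : 0 ≤ δ) (hδ : δ ≤ 1 / 16384)
    (hL : L ≤ δ * p) (hp : 64 * s.β ≤ p)
    (hA : nm (s.A - s.α • m1) ≤ δ) (hB : nm (s.B - s.β • m2) ≤ δ)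
    (hm1 : nm ((0, 0, 1, 0) - m1) ≤ 1 / 16) (hm2 : nm ((0, 0, 0, -1) - m2) ≤ 1 / 16)
    (hx1 : 1 < x) (hx2 : x < 2) (hρ1 : 3 / 2 * (p * s.α) ≤ ρ * x * s.β)
    (hρ2 : ρ * x * s.β ≤ 8 / 5 * (p * s.α)) (hc : 0 < c)
    (hv : nm (v - c • (x • m1 + m2)) < c / 100) (hκ : s.g κ = v) (hD : κ ∈ D p ρ) :
    κ.2.1 < κ.1 ∧ (-κ.2.2.2 ≤ (ρ + 2) * κ.2.1 → κ.1 < 2 * κ.2.1) := by
  obtain ⟨a1, a2, b1, b2⟩ := κ
  obtain ⟨t, rfl⟩ : ∃ t, b2 = -t := ⟨-b2, by rw [neg_neg]⟩
  obtain ⟨h1, h2, h3, h4, h5, h6, h7, -⟩ := hD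
  dsimp only at h1 h2 h3 h4 h5 h6 h7 ⊢
  rw [neg_neg] at h7 ⊢
  have ht : 0 ≤ t := by linarith
  have hα := hs.one_le_α
  have hβ := hs.one_le_β
  have hp0 : (0 : ℝ) < p := by linarith
  have hX0 : b1 ≤ b1 * s.α := by nlinarith
  have hY0 : t ≤ t * s.β := by nlinarith
  have hg : s.g (0, 0, b1, -t) = b1 • s.A + t • s.B := by
    rw [hs.lin 0 0 b1 t le_rfl le_rfl h3 ht, zero_smul, zero_smul, zero_add, zero_add]
  have q1 := hLip (a1, a2, b1, -t) (0, 0, b1, -t)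
  have q2 : nm ((a1, a2, b1, -t) - (0, 0, b1, -t)) = a1 + a2 := by
    simp only [nm, Prod.mk_sub_mk, sub_zero, sub_self, Prod.fst_zero, Prod.snd_zero, abs_zero,
      add_zero]
    rw [abs_of_nonneg h1, abs_of_nonneg h2]
  rw [q2, hκ, hg] at q1
  -- the two coefficients
  have hLa1 : L * a1 ≤ δ * (b1 * s.α) := by
    have e1 : L * a1 ≤ δ * p * a1 := mul_le_mul_of_nonneg_right hL h1
    have e2 : δ * (p * a1) ≤ δ * b1 := mul_le_mul_of_nonneg_left h5 hδ0
    have e3 : δ * b1 ≤ δ * (b1 * s.α) := mul_le_mul_of_nonneg_left hX0 hδ0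
    linarith
  have hLa2 : L * a2 ≤ 4 / 3 * (δ * (t * s.β)) := by
    have e0 : p ≤ 4 / 3 * (ρ * s.β) := by
      have k1 : ρ * x * s.β ≤ 2 * (ρ * s.β) := by
        have : (0 : ℝ) ≤ ρ * s.β := mul_nonneg (Nat.cast_nonneg _) (by linarith)
        nlinarith
      have k2 : (p : ℝ) ≤ p * s.α := by nlinarith
      linarith
    have e1 : L * a2 ≤ δ * p * a2 := mul_le_mul_of_nonneg_right hL h2
    have e2 : δ * p * a2 ≤ δ * (4 / 3 * (ρ * s.β)) * a2 :=
      mul_le_mul_of_nonneg_right (mul_le_mul_of_nonneg_left e0 hδ0) h2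
    have e3 : δ * s.β * (ρ * a2) ≤ δ * s.β * t :=
      mul_le_mul_of_nonneg_left h7 (mul_nonneg hδ0 (by linarith))
    linarith
  -- comparison with the limits
  have q3 : nm (b1 • s.A + t • s.B - ((b1 * s.α) • m1 + (t * s.β) • m2)) ≤
      b1 * δ + t * δ := by
    have e : b1 • s.A + t • s.B - ((b1 * s.α) • m1 + (t * s.β) • m2) =
        b1 • (s.A - s.α • m1) + t • (s.B - s.β • m2) := by
      rw [smul_sub, smul_sub, smul_smul, smul_smul]
      abel
    rw [e]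
    refine (nm_add _ _).trans ?_
    rw [nm_smul, nm_smul, abs_of_nonneg h3, abs_of_nonneg ht]
    exact add_le_add (mul_le_mul_of_nonneg_left hA h3) (mul_le_mul_of_nonneg_left hB ht)
  have hXδ : b1 * δ ≤ b1 * s.α * δ := mul_le_mul_of_nonneg_right hX0 hδ0
  have hYδ : t * δ ≤ t * s.β * δ := mul_le_mul_of_nonneg_right hY0 hδ0
  have q4 : nm ((b1 * s.α - c * x) • m1 + (t * s.β - c) • m2) ≤
      3 * δ * (b1 * s.α + t * s.β) + c / 100 := by
    have e : (b1 * s.α - c * x) • m1 + (t * s.β - c) • m2 =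
        -(b1 • s.A + t • s.B - ((b1 * s.α) • m1 + (t * s.β) • m2)) -
        (v - (b1 • s.A + t • s.B)) + (v - c • (x • m1 + m2)) := by
      rw [smul_add, smul_smul, sub_smul, sub_smul]
      abel
    have k1 := nm_add (-(b1 • s.A + t • s.B - ((b1 * s.α) • m1 + (t * s.β) • m2)) -
        (v - (b1 • s.A + t • s.B))) (v - c • (x • m1 + m2))
    have k2 := nm_sub (-(b1 • s.A + t • s.B - ((b1 * s.α) • m1 + (t * s.β) • m2)))
        (v - (b1 • s.A + t • s.B))
    rw [nm_neg] at k2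
    rw [e]
    have z1 : 0 ≤ δ * (b1 * s.α) := mul_nonneg hδ0 (by linarith)
    have z2 : 0 ≤ δ * (t * s.β) := mul_nonneg hδ0 (by linarith)
    linarith
  have q5 := lower_bound hm1 hm2 (b1 * s.α - c * x) (t * s.β - c)
  have r1 := le_abs_self (b1 * s.α - c * x)
  have r2 := le_abs_self (t * s.β - c)
  have r3 := abs_nonneg (b1 * s.α - c * x)
  have r4 := abs_nonneg (t * s.β - c)
  have hcx : c * x ≤ 2 * c := by nlinarith
  have q6 : 3 * δ * (b1 * s.α + t * s.β) ≤ 3 / 16384 * (b1 * s.α + t * s.β) :=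
    mul_le_mul_of_nonneg_right (by linarith) (by linarith)
  exact ratio_bounds hα hβ hx1 hx2 hp hρ1 hρ2 (Nat.cast_nonneg _) hc h5 h6 h7
    (by linarith) (by linarith)

/-- The number `ρ`. -/
theorem exists_rho {p r : ℕ} {α β x : ℝ} (hα : 1 ≤ α) (hβ : 1 ≤ β) (hx1 : 1 < x)
    (hx2 : x < 2) (hp : 64 * β ≤ p) (hr : 64 * (1 + p * α) ≤ r) :
    ∃ ρ : ℕ, 3 / 2 * (p * α) ≤ ρ * x * β ∧ ρ * x * β ≤ 8 / 5 * (p * α) ∧ ρ + 3 ≤ r := by
  have hxβ : 0 < x * β := mul_pos (by linarith) (by linarith)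
  have hxβ1 : 1 ≤ x * β := by nlinarith
  have hp0 : (0 : ℝ) < p := by linarith
  have hpα : 0 < p * α := mul_pos hp0 (by linarith)
  have hz0 : 0 ≤ 3 / 2 * (p * α) / (x * β) := by positivity
  refine ⟨⌈3 / 2 * (p * α) / (x * β)⌉₊, ?_, ?_, ?_⟩
  · have h := Nat.le_ceil (3 / 2 * (p * α) / (x * β))
    rw [div_le_iff₀ hxβ] at h
    linarith
  · have h := (Nat.ceil_lt_add_one hz0).le
    have h2 := mul_le_mul_of_nonneg_right h hxβ.le
    rw [add_mul, div_mul_cancel₀ _ hxβ.ne'] at h2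
    have h3 : 64 * β ≤ p * α := by nlinarith
    nlinarith
  · have h := (Nat.ceil_lt_add_one hz0).le
    have h2 : 3 / 2 * (p * α) / (x * β) ≤ 3 / 2 * (p * α) := div_le_self (by positivity) hxβ1
    have h3 : ((⌈3 / 2 * (p * α) / (x * β)⌉₊ + 3 : ℕ) : ℝ) ≤ r := by
      push_cast
      linarith
    exact_mod_cast h3

/-- The main statement, for cones of measured laminations. -/
theorem separation : ∃ (ν : Dyn) (U : Set Dyn), Indep ν ∧ IsOpen U ∧ ν ∈ U ∧
    (∀ c : ℝ, 0 < c → ∀ v ∈ U, c • v ∈ U) ∧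
    ∀ V : Set Dyn, IsOpen V → ν ∈ V → ∃ Ω Ω' : Set Dyn, IsOpen Ω ∧ IsOpen Ω' ∧ Disjoint Ω Ω' ∧
      (∀ c : ℝ, 0 < c → ∀ v ∈ Ω, c • v ∈ Ω) ∧ (∀ c : ℝ, 0 < c → ∀ v ∈ Ω', c • v ∈ Ω') ∧
      (∀ v ∈ U, Filling v → v ∈ Ω ∨ v ∈ Ω') ∧ ν ∈ Ω ∧ (V ∩ Ω').Nonempty := by
  obtain ⟨s, p, r, m1, m2, x, hs0, hg, hs, hgr, hA, hB, hx1, hx2, hind⟩ := exists_data
  have hm1 : nm ((0, 0, 1, 0) - m1) ≤ 1 / 16 := by
    have h := hA 0
    rw [hs0] at h
    have e : init.A - init.α • m1 = (0, 0, 1, 0) - m1 := by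
      show (0, 0, 1, 0) - (1 : ℝ) • m1 = _
      rw [one_smul]
    rw [e] at h
    norm_num at h ⊢
    exact h
  have hm2 : nm ((0, 0, 0, -1) - m2) ≤ 1 / 16 := by
    have h := hB 0
    rw [hs0] at h
    have e : init.B - init.β • m2 = (0, 0, 0, -1) - m2 := by
      show (0, 0, 0, -1) - (1 : ℝ) • m2 = _
      rw [one_smul]
    rw [e] at h
    norm_num at h ⊢
    exact h
  -- the points of the cone which converge to `ν`
  obtain ⟨y, hy⟩ : ∃ y : ℕ → Dyn, ∀ k, y k = (s k).g (0, 0, x * (s k).α⁻¹, -(s k).β⁻¹) :=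
    ⟨_, fun k => rfl⟩
  have hα : ∀ k, 0 < (s k).α := fun k => by linarith [(hg k).one_le_α]
  have hβ : ∀ k, 0 < (s k).β := fun k => by linarith [(hg k).one_le_β]
  have hyν : ∀ k, nm (y k - (x • m1 + m2)) ≤ 3 * (1 / 4) ^ (k + 2) := by
    intro k
    have ha := hα k
    have hb := hβ k
    have hai : 0 < (s k).α⁻¹ := inv_pos.2 ha
    have hbi : 0 < (s k).β⁻¹ := inv_pos.2 hb
    have hai1 : (s k).α⁻¹ ≤ 1 := inv_le_one_of_one_le₀ (hg k).one_le_α
    have hbi1 : (s k).β⁻¹ ≤ 1 := inv_le_one_of_one_le₀ (hg k).one_le_β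
    have e1 : y k = (x * (s k).α⁻¹) • (s k).A + (s k).β⁻¹ • (s k).B := by
      rw [hy k, (hg k).lin 0 0 _ _ le_rfl le_rfl (by positivity) hbi.le, zero_smul, zero_smul,
        zero_add, zero_add]
    have e2 : y k - (x • m1 + m2) = (x * (s k).α⁻¹) • ((s k).A - (s k).α • m1) +
        (s k).β⁻¹ • ((s k).B - (s k).β • m2) := by
      rw [e1, smul_sub, smul_sub, smul_smul, smul_smul, inv_mul_cancel₀ hb.ne', one_smul,
        mul_assoc, inv_mul_cancel₀ ha.ne', mul_one]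
      abel
    rw [e2]
    refine (nm_add _ _).trans ?_
    rw [nm_smul, nm_smul, abs_of_pos (by positivity), abs_of_pos hbi]
    have n1 := nm_nonneg ((s k).A - (s k).α • m1)
    have n2 := nm_nonneg ((s k).B - (s k).β • m2)
    have f1 : x * (s k).α⁻¹ * nm ((s k).A - (s k).α • m1) ≤
        2 * 1 * (1 / 4) ^ (k + 2) :=
      mul_le_mul (mul_le_mul hx2.le hai1 hai.le (by norm_num)) (hA k) n1 (by norm_num)
    have f2 : (s k).β⁻¹ * nm ((s k).B - (s k).β • m2) ≤ 1 * (1 / 4) ^ (k + 2) :=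
      mul_le_mul hbi1 (hB k) n2 (by norm_num)
    linarith
  have hylim : Tendsto y atTop (𝓝 (x • m1 + m2)) := by
    rw [tendsto_iff_dist_tendsto_zero]
    have h0 : Tendsto (fun k : ℕ => 3 * ((1 : ℝ) / 4) ^ (k + 2)) atTop (𝓝 0) := by
      have h1 : Tendsto (fun k : ℕ => ((1 : ℝ) / 4) ^ (k + 2)) atTop (𝓝 0) :=
        (tendsto_add_atTop_iff_nat 2).2
          (tendsto_pow_atTop_nhds_zero_of_lt_one (by norm_num) (by norm_num))
      have h2 := h1.const_mul 3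
      rwa [mul_zero] at h2
    exact squeeze_zero (fun k => dist_nonneg) (fun k => (dist_le_nm _ _).trans (hyν k)) h0
  -- the point `ν` lies in all the images of the cone
  have hcone : ∀ k i v, Cone v → Cone ((s k).g⁻¹ ((s (k + i)).g v)) := by
    intro k i
    induction i with
    | zero =>
      intro v hv
      have e : (s k).g⁻¹ ((s (k + 0)).g v) = v := (s k).g.symm_apply_apply v
      rw [e]
      exact hv
    | succ i ih =>
      intro v hv
      have e : (s (k + (i + 1))).g v = (s (k + i)).g (hmap (p (k + i)) (r (k + i)) v) := by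
        rw [← add_assoc, hs (k + i)]
        rfl
      rw [e]
      exact ih _ (hv.hmap _ _)
  have hνcone : ∀ k, Cone ((s k).g⁻¹ (x • m1 + m2)) := by
    intro k
    have hcont : Continuous fun v => (s k).g⁻¹ v := (nice_of_mem (hg k).mem).2.cont
    have h1 : Tendsto (fun i => (s k).g⁻¹ (y (k + i))) atTop (𝓝 ((s k).g⁻¹ (x • m1 + m2))) := by
      have h3 : Tendsto (fun i => y (k + i)) atTop (𝓝 (x • m1 + m2)) :=
        ((tendsto_add_atTop_iff_nat k).2 hylim).congr fun i => by rw [add_comm]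
      exact (hcont.tendsto _).comp h3
    refine isClosed_cone.mem_of_tendsto h1 (Eventually.of_forall fun i => ?_)
    show Cone ((s k).g⁻¹ (y (k + i)))
    rw [hy]
    apply hcone
    have ha := hα (k + i)
    have hb := hβ (k + i)
    refine ⟨le_rfl, le_rfl, ?_, ?_⟩
    · show 0 ≤ x * (s (k + i)).α⁻¹
      positivity
    · show -(s (k + i)).β⁻¹ ≤ 0
      have : 0 < (s (k + i)).β⁻¹ := inv_pos.2 hb
      linarith
  have hνf : Filling (x • m1 + m2) := hind.filling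
  refine ⟨x • m1 + m2, {v | ∃ c : ℝ, 0 < c ∧ nm (v - c • (x • m1 + m2)) < c / 100}, hind,
    ?_, ?_, ?_, ?_⟩
  · have e : {v | ∃ c : ℝ, 0 < c ∧ nm (v - c • (x • m1 + m2)) < c / 100} =
        ⋃ c : {c : ℝ // 0 < c}, {v | nm (v - c.1 • (x • m1 + m2)) < c.1 / 100} := by
      ext v
      simp
    rw [e]
    refine isOpen_iUnion fun c => isOpen_lt (by fun_prop) (by fun_prop)
  · exact ⟨1, one_pos, by rw [one_smul, sub_self, nm_zero]; norm_num⟩
  · rintro c hc v ⟨d, hd, h⟩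
    refine ⟨c * d, mul_pos hc hd, ?_⟩
    rw [← smul_smul, ← smul_sub, nm_smul, abs_of_pos hc]
    have := mul_lt_mul_of_pos_left h hc
    linarith
  · intro V hV hνV
    -- choice of the stage
    obtain ⟨k, hk5, hkV⟩ : ∃ k, 5 ≤ k ∧ y k ∈ V := by
      have h1 : ∀ᶠ k in atTop, y k ∈ V := hylim.eventually (hV.mem_nhds hνV)
      obtain ⟨k, h2, h3⟩ := ((eventually_ge_atTop 5).and h1).exists
      exact ⟨k, h2, h3⟩
    obtain ⟨⟨L, hL1, hLip, hp⟩, hr⟩ := hgr k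
    have hα1 := (hg k).one_le_α
    have hβ1 := (hg k).one_le_β
    have h4 : (4 : ℝ) ^ 8 ≤ 4 ^ (k + 3) := pow_le_pow_right₀ (by norm_num) (by omega)
    have n1 := nm_nonneg (s k).U
    have n2 := nm_nonneg (nextA (s k) (p k))
    have n3 := nm_nonneg (s k).W
    have hpow : ((1 : ℝ) / 4) ^ (k + 3) * 4 ^ (k + 3) = 1 := by
      rw [← mul_pow]
      norm_num
    have hδ0 : (0 : ℝ) < (1 / 4) ^ (k + 3) := by positivity
    have hLβ : L ≤ L * (s k).β := by nlinarith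
    have hβL : (s k).β ≤ L * (s k).β := by nlinarith
    have hp64 : 64 * (s k).β ≤ p k := by
      have e1 : (4 : ℝ) ^ 8 * (s k).β ≤ 4 ^ (k + 3) * (1 + nm (s k).U + L * (s k).β) :=
        mul_le_mul h4 (by linarith) (by linarith) (by positivity)
      norm_num at e1
      linarith
    have hpα : 0 < p k * (s k).α := mul_pos (by linarith) (hα k)
    have hr64 : 64 * (1 + p k * (s k).α) ≤ r k := by
      have e1 : (4 : ℝ) ^ 8 * (1 + p k * (s k).α) ≤
          4 ^ (k + 3) * (1 + nm (nextA (s k) (p k)) + nm (s k).W + p k * (s k).α) :=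
        mul_le_mul h4 (by linarith) (by linarith) (by positivity)
      norm_num at e1
      linarith
    obtain ⟨ρ, hρ1, hρ2, hρ3⟩ := exists_rho hα1 hβ1 hx1 hx2 hp64 hr64
    have hLp : L ≤ (1 / 4) ^ (k + 2) * p k := by
      have e1 : 4 ^ (k + 3) * L ≤ 4 ^ (k + 3) * (1 + nm (s k).U + L * (s k).β) :=
        mul_le_mul_of_nonneg_left (by linarith) (by positivity)
      have e2 := mul_le_mul_of_nonneg_left (e1.trans hp) hδ0.le
      rw [← mul_assoc, hpow, one_mul] at e2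
      have e3 : ((1 : ℝ) / 4) ^ (k + 3) ≤ (1 / 4) ^ (k + 2) :=
        pow_le_pow_of_le_one (by norm_num) (by norm_num) (by omega)
      have e4 : (0 : ℝ) < p k := by linarith
      exact e2.trans (mul_le_mul_of_nonneg_right e3 e4.le)
    have hδ : ((1 : ℝ) / 4) ^ (k + 2) ≤ 1 / 16384 := by
      have e3 : ((1 : ℝ) / 4) ^ (k + 2) ≤ (1 / 4) ^ 7 :=
        pow_le_pow_of_le_one (by norm_num) (by norm_num) (by omega)
      norm_num at e3 ⊢
      exact e3
    have hcont : Continuous fun v => (s k).g⁻¹ v := (nice_of_mem (hg k).mem).2.cont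
    have hhom : ∀ c : ℝ, 0 < c → ∀ v, (s k).g⁻¹ (c • v) = c • (s k).g⁻¹ v :=
      fun c hc v => (nice_of_mem (hg k).mem).2.hom c hc.le v
    refine ⟨{v | (s k).g⁻¹ v ∈ cell (p k) ρ}, {v | (s k).g⁻¹ v ∉ D (p k) ρ},
      (isOpen_cell _ _).preimage hcont, ((isClosed_D _ _).preimage hcont).isOpen_compl,
      ?_, ?_, ?_, ?_, ?_, ?_⟩
    · rw [Set.disjoint_left]
      intro v h1 h2
      exact h2 (cell_subset _ _ h1)
    · intro c hc v hv
      show (s k).g⁻¹ (c • v) ∈ cell (p k) ρ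
      rw [hhom c hc]
      exact cell_smul hc hv
    · intro c hc v hv h
      apply hv
      rw [hhom c hc] at h
      have h2 := D_smul (inv_pos.2 hc).le h
      rwa [smul_smul, inv_mul_cancel₀ hc.ne', one_smul] at h2
    · rintro v ⟨c, hc, hvc⟩ hf
      by_cases hD : (s k).g⁻¹ v ∈ D (p k) ρ
      · left
        have hκ : (s k).g ((s k).g⁻¹ v) = v := (s k).g.apply_symm_apply v
        obtain ⟨k1, k2⟩ := slab (hg k) hLip (by positivity) hδ hLp hp64 (hA k) (hB k) hm1 hm2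
          hx1 hx2 hρ1 hρ2 hc hvc hκ hD
        exact cell_of_filling hD (hf.map (inv_mem (hg k).mem)) k1 k2
      · exact Or.inr hD
    · show (s k).g⁻¹ (x • m1 + m2) ∈ cell (p k) ρ
      have e : (s k).g⁻¹ (x • m1 + m2) =
          hmap (p k) (r k) ((s (k + 1)).g⁻¹ (x • m1 + m2)) := by
        have e1 : (s (k + 1)).g = (s k).g * hmap (p k) (r k) := by rw [hs k]; rfl
        rw [e1, mul_inv_rev, Equiv.Perm.mul_apply]
        exact ((hmap (p k) (r k)).apply_symm_apply _).symm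
      rw [e]
      apply hmap_mem_cell hρ3 (hνcone (k + 1))
      rw [← e]
      exact hνf.map (inv_mem (hg k).mem)
    · refine ⟨y k, hkV, ?_⟩
      show (s k).g⁻¹ (y k) ∉ D (p k) ρ
      rw [hy k]
      have e : (s k).g⁻¹ ((s k).g (0, 0, x * (s k).α⁻¹, -(s k).β⁻¹)) =
        (0, 0, x * (s k).α⁻¹, -(s k).β⁻¹) := (s k).g.symm_apply_apply _
      rw [e]
      rintro ⟨-, -, -, -, -, h6, -⟩
      dsimp only at h6
      rw [mul_zero] at h6
      have ha := hα k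
      have : 0 < x * (s k).α⁻¹ := by positivity
      linarith

end Pool.Agent.Lib.MP_b0c7df_gt
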