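import Pool.Agent.Lib.MP_b0c7df_gt.Slab
import Mathlib.Analysis.Convex.PathConnected
import Mathlib.Analysis.InnerProductSpace.PiL2

/-!
From the separation statement for cones to the failure of local connectivity.
-/

namespace Pool.Agent.Lib.MP_b0c7df_gt

open Filter Topology

/-- The class of a nonzero vector. -/
def cls (v : {v : Dyn // v ≠ 0}) : PML := Quotient.mk scal v

theorem isQuotientMap_cls : IsQuotientMap cls := isQuotientMap_quot_mk

/-- The set of the classes of the elements of a cone. -/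
def coneSet (Ω : Set Dyn) : Set PML := {z | ∃ v : {v : Dyn // v ≠ 0}, cls v = z ∧ v.1 ∈ Ω}

theorem mem_coneSet {Ω : Set Dyn} (h : ∀ c : ℝ, 0 < c → ∀ v ∈ Ω, c • v ∈ Ω)
    (v : {v : Dyn // v ≠ 0}) : cls v ∈ coneSet Ω ↔ v.1 ∈ Ω := by
  constructor
  · rintro ⟨u, hu, huΩ⟩
    obtain ⟨c, hc, hcv⟩ := Quotient.exact hu
    rw [hcv]
    exact h c hc _ huΩ
  · intro hv
    exact ⟨v, rfl, hv⟩

theorem isOpen_coneSet {Ω : Set Dyn} (hΩ : IsOpen Ω) (h : ∀ c : ℝ, 0 < c → ∀ v ∈ Ω, c • v ∈ Ω) :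
    IsOpen (coneSet Ω) := by
  rw [← isQuotientMap_cls.isOpen_preimage]
  have e : cls ⁻¹' (coneSet Ω) = Subtype.val ⁻¹' Ω := by
    ext v
    exact mem_coneSet h v
  rw [e]
  exact hΩ.preimage continuous_subtype_val

/-- The point of `FPML` given by a filling vector. -/
def pt (v : Dyn) (h : Filling v) : FPML := ⟨cls ⟨v, h.ne_zero⟩, ⟨v, h.ne_zero⟩, rfl, h⟩

theorem exists_rep (y : FPML) : ∃ (v : Dyn) (h : Filling v), y = pt v h := by
  obtain ⟨y, v, hv, hf⟩ := y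
  exact ⟨v.1, hf, Subtype.ext hv.symm⟩

/-- The trace on `FPML` of an open cone. -/
def tr (Ω : Set Dyn) : Set FPML := Subtype.val ⁻¹' coneSet Ω

theorem mem_tr {Ω : Set Dyn} (h : ∀ c : ℝ, 0 < c → ∀ v ∈ Ω, c • v ∈ Ω) {v : Dyn} (hf : Filling v) :
    pt v hf ∈ tr Ω ↔ v ∈ Ω := mem_coneSet h ⟨v, hf.ne_zero⟩

theorem isOpen_tr {Ω : Set Dyn} (hΩ : IsOpen Ω) (h : ∀ c : ℝ, 0 < c → ∀ v ∈ Ω, c • v ∈ Ω) :
    IsOpen (tr Ω) := (isOpen_coneSet hΩ h).preimage continuous_subtype_val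

/-- The separation statement in `FPML`. -/
theorem separation_FPML : ∃ (x : FPML) (U : Set FPML), IsOpen U ∧ x ∈ U ∧
    ∀ V ∈ 𝓝 x, ∃ Ω Ω' : Set FPML, IsOpen Ω ∧ IsOpen Ω' ∧ Disjoint Ω Ω' ∧ U ⊆ Ω ∪ Ω' ∧
      x ∈ Ω ∧ ∃ y ∈ V, y ∈ Ω' := by
  obtain ⟨ν, U, hνI, hU, hνU, hUs, hsep⟩ := separation
  refine ⟨pt ν hνI.filling, tr U, isOpen_tr hU hUs, (mem_tr hUs _).2 hνU, ?_⟩
  intro V hV
  obtain ⟨O, hO, hOV⟩ := mem_nhds_induced Subtype.val _ V |>.1 hV
  obtain ⟨O', hO'O, hO', hνO'⟩ := mem_nhds_iff.1 hO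
  have hV' : IsOpen {v : Dyn | ∃ h : v ≠ 0, cls ⟨v, h⟩ ∈ O'} := by
    have h1 : IsOpen (cls ⁻¹' O') := hO'.preimage isQuotientMap_cls.continuous
    have h2 : IsOpen {v : Dyn | v ≠ 0} := isOpen_ne
    have h3 : IsOpen (Subtype.val '' (cls ⁻¹' O')) := h2.isOpenEmbedding_subtypeVal.isOpenMap _ h1
    have e : {v : Dyn | ∃ h : v ≠ 0, cls ⟨v, h⟩ ∈ O'} = Subtype.val '' (cls ⁻¹' O') := by
      ext v
      constructor
      · rintro ⟨h, hv⟩
        exact ⟨⟨v, h⟩, hv, rfl⟩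
      · rintro ⟨u, hu, rfl⟩
        exact ⟨u.2, hu⟩
    rw [e]
    exact h3
  obtain ⟨Ω, Ω', hΩ, hΩ', hdis, hs, hs', hcov, hνΩ, hne⟩ :=
    hsep _ hV' ⟨hνI.filling.ne_zero, hνO'⟩
  obtain ⟨z, hz⟩ := hne
  obtain ⟨u, ⟨⟨hu0, huO'⟩, huΩ'⟩, huf⟩ := dense_filling hνI (hV'.inter hΩ') hz
  refine ⟨tr Ω, tr Ω', isOpen_tr hΩ hs, isOpen_tr hΩ' hs', ?_, ?_, (mem_tr hs _).2 hνΩ,
    pt u huf, hOV (hO'O huO'), (mem_tr hs' _).2 huΩ'⟩
  · rw [Set.disjoint_left]
    intro y h1 h2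
    obtain ⟨v, hv, rfl⟩ := exists_rep y
    rw [mem_tr hs] at h1
    rw [mem_tr hs'] at h2
    exact Set.disjoint_left.1 hdis h1 h2
  · intro y hy
    obtain ⟨v, hv, rfl⟩ := exists_rep y
    rw [mem_tr hUs] at hy
    rcases hcov v hy hv with h | h
    · exact Or.inl ((mem_tr hs _).2 h)
    · exact Or.inr ((mem_tr hs' _).2 h)

/-- The map of the zero-sphere which sends the positive point to `x` and the negative one to
`y`. -/
theorem exists_sphere_map {X : Type} [TopologicalSpace X] (x y : X) :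
    ∃ f : C(Sph 0, X), (∀ s, f s = x ∨ f s = y) ∧ (∃ s, f s = x) ∧ ∃ s, f s = y := by
  classical
  have hne : ∀ s : Sph 0, s.1 0 ≠ 0 := by
    intro s h0
    have h1 : ‖s.1‖ = 1 := s.2
    have h2 : s.1 = 0 := by
      ext i
      have hi : i = 0 := Fin.ext (by have := i.2; omega)
      rw [hi, h0]
      rfl
    rw [h2, norm_zero] at h1
    exact zero_ne_one h1
  have hv : Continuous fun s : Sph 0 => s.1 := continuous_subtype_val
  have hc : Continuous fun s : Sph 0 => s.1 0 := by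
    fun_prop
  have hclopen : IsClopen {s : Sph 0 | 0 < s.1 0} := by
    refine ⟨?_, isOpen_lt continuous_const hc⟩
    have e : {s : Sph 0 | 0 < s.1 0} = {s | 0 ≤ s.1 0} := by
      ext s
      constructor
      · intro h
        have h' : 0 < s.1 0 := h
        exact h'.le
      · intro h
        have h' : 0 ≤ s.1 0 := h
        exact lt_of_le_of_ne h' (hne s).symm
    rw [e]
    exact isClosed_le continuous_const hc
  have hf : Continuous fun s : Sph 0 => if 0 < s.1 0 then x else y := by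
    refine Continuous.if ?_ continuous_const continuous_const
    intro a ha
    rw [hclopen.frontier_eq] at ha
    exact absurd ha (Set.notMem_empty a)
  refine ⟨⟨_, hf⟩, ?_, ?_, ?_⟩
  · intro s
    show (if 0 < s.1 0 then x else y) = x ∨ (if 0 < s.1 0 then x else y) = y
    by_cases h : 0 < s.1 0
    · rw [if_pos h]
      exact Or.inl rfl
    · rw [if_neg h]
      exact Or.inr rfl
  · refine ⟨⟨EuclideanSpace.single 0 1, ?_⟩, ?_⟩
    · simp
    · show (if 0 < (EuclideanSpace.single 0 1 : EuclideanSpace ℝ (Fin (0 + 1))) 0 then x else y) = x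
      rw [if_pos (by simp)]
  · refine ⟨⟨EuclideanSpace.single 0 (-1), ?_⟩, ?_⟩
    · simp
    · show (if 0 < (EuclideanSpace.single 0 (-1) : EuclideanSpace ℝ (Fin (0 + 1))) 0 then x
        else y) = y
      rw [if_neg (by simp)]

theorem preconnected_ball (i : ℕ) : IsPreconnected (Set.univ : Set (Ball i)) := by
  have h1 : IsPreconnected {y : EuclideanSpace ℝ (Fin (i + 1)) | ‖y‖ ≤ 1} := by
    have e : {y : EuclideanSpace ℝ (Fin (i + 1)) | ‖y‖ ≤ 1} = Metric.closedBall 0 1 := by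
      ext y
      rw [mem_closedBall_zero_iff]
      rfl
    rw [e]
    exact (convex_closedBall 0 1).isPreconnected
  have h2 := isPreconnected_iff_preconnectedSpace.1 h1
  exact @isPreconnected_univ _ _ h2

/-- The space of filling projective measured laminations is not locally connected. -/
theorem not_mLocallyConnected (m : ℕ) : ¬ MLocallyConnected m FPML := by
  intro h
  obtain ⟨x, U, hU, hxU, hsep⟩ := separation_FPML
  obtain ⟨V, hV, -, hext⟩ := h x U (hU.mem_nhds hxU)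
  obtain ⟨Ω, Ω', hΩ, hΩ', hdis, hcov, hxΩ, y, hyV, hyΩ'⟩ := hsep V hV
  obtain ⟨f, hf, ⟨s1, hs1⟩, ⟨s2, hs2⟩⟩ := exists_sphere_map x y
  obtain ⟨F, hFU, hF⟩ := hext 0 (Nat.zero_le m) f (fun s => by
    rcases hf s with h | h
    · rw [h]
      exact mem_of_mem_nhds hV
    · rw [h]
      exact hyV)
  have h1 := preconnected_ball 0 (F ⁻¹' Ω) (F ⁻¹' Ω') (hΩ.preimage F.continuous)
    (hΩ'.preimage F.continuous) (fun b _ => hcov (hFU b))
    ⟨bdry 0 s1, trivial, by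
      show F _ ∈ Ω
      rw [hF s1, hs1]
      exact hxΩ⟩
    ⟨bdry 0 s2, trivial, by
      show F _ ∈ Ω'
      rw [hF s2, hs2]
      exact hyΩ'⟩
  obtain ⟨b, -, hb1, hb2⟩ := h1
  exact Set.disjoint_left.1 hdis hb1 hb2

end Pool.Agent.Lib.MP_b0c7df_gt
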